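import Mathlib

namespace Pool.Agent.Lib.MP_ff54ac_co

/-- The double descent set of a permutation; positions are counted from 1, so position `i`
is the index `i - 1` of `Fin n`. -/
def DD {n : ℕ} (π : Equiv.Perm (Fin n)) : Set ℕ :=
  {i | ∃ a b c : Fin n, a.val + 2 = i ∧ b.val + 1 = i ∧ c.val = i ∧ π b < π a ∧ π c < π b}

/-- The number of permutations of `n` letters whose double descent set is exactly `I`. -/
noncomputable def dd (I : Finset ℕ) (n : ℕ) : ℕ :=
  Set.ncard {π : Equiv.Perm (Fin n) | DD π = (I : Set ℕ)}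

end Pool.Agent.Lib.MP_ff54ac_co
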