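import Mathlib
import Pool.Agent.Lib.MP_ff54ac_co.Defs

namespace Pool.Agent.Lib.MP_ff54ac_co

open Finset

def des {n : ℕ} (π : Equiv.Perm (Fin n)) (i : ℕ) : Prop :=
  ∃ a b : Fin n, a.val = i ∧ b.val = i + 1 ∧ π b < π a

def ex {n : ℕ} (s : Prop) (π : Equiv.Perm (Fin n)) : ℕ → Prop
  | 0 => s
  | (i + 1) => des π i

def Good {n : ℕ} (S : Set ℕ) (s : Prop) (π : Equiv.Perm (Fin n)) : Prop :=
  ∀ i, (ex s π i ∧ ex s π (i + 1)) ↔ i ∈ S

def sh (S : Set ℕ) : Set ℕ := {i | i + 1 ∈ S}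

def fd {n : ℕ} (k : ℕ) (σ : Equiv.Perm (Fin n)) : Prop :=
  ∃ b : Fin n, b.val = 0 ∧ (σ b).val < k

def GG {n : ℕ} (S : Set ℕ) (s : Prop) (k : ℕ) (σ : Equiv.Perm (Fin n)) : Prop :=
  ((s ∧ fd k σ) ↔ 0 ∈ S) ∧ Good (sh S) (fd k σ) σ

def cons {n : ℕ} (k : Fin (n + 1)) (σ : Equiv.Perm (Fin n)) : Equiv.Perm (Fin (n + 1)) :=
  (finSuccEquiv n).trans ((Equiv.optionCongr σ).trans (finSuccEquiv' k).symm)

theorem cons_zero {n : ℕ} (k : Fin (n + 1)) (σ : Equiv.Perm (Fin n)) : cons k σ 0 = k := by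
  simp [cons]

theorem cons_succ {n : ℕ} (k : Fin (n + 1)) (σ : Equiv.Perm (Fin n)) (i : Fin n) :
    cons k σ i.succ = k.succAbove (σ i) := by
  simp [cons]

theorem cons_bij (n : ℕ) :
    Function.Bijective (fun p : Fin (n + 1) × Equiv.Perm (Fin n) => cons p.1 p.2) := by
  rw [Fintype.bijective_iff_injective_and_card]
  refine ⟨?_, by simp [Fintype.card_perm, Nat.factorial_succ]⟩
  rintro ⟨k, σ⟩ ⟨l, τ⟩ h
  have h' : cons k σ = cons l τ := h
  have hk : k = l := by rw [← cons_zero k σ, h', cons_zero]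
  subst hk
  have : σ = τ := by
    ext i
    have := cons_succ k σ i
    rw [h', cons_succ] at this
    exact congrArg Fin.val (Fin.succAbove_right_injective this).symm
  rw [this]

theorem des_cons_zero {n : ℕ} (k : Fin (n + 1)) (σ : Equiv.Perm (Fin n)) :
    des (cons k σ) 0 ↔ fd k.val σ := by
  constructor
  · rintro ⟨a, b, ha, hb, h⟩
    have ha' : a = 0 := Fin.ext ha
    subst ha'
    have hb0 : b ≠ 0 := by
      intro h0
      rw [h0] at hb
      simp at hb
    obtain ⟨c, rfl⟩ := Fin.exists_succ_eq.2 hb0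
    rw [cons_zero, cons_succ, Fin.succAbove_lt_iff_castSucc_lt] at h
    refine ⟨c, by simpa using hb, h⟩
  · rintro ⟨c, hc, h⟩
    refine ⟨0, c.succ, rfl, by simp [hc], ?_⟩
    rw [cons_zero, cons_succ, Fin.succAbove_lt_iff_castSucc_lt]
    exact h

theorem des_cons_succ {n : ℕ} (k : Fin (n + 1)) (σ : Equiv.Perm (Fin n)) (i : ℕ) :
    des (cons k σ) (i + 1) ↔ des σ i := by
  constructor
  · rintro ⟨a, b, ha, hb, h⟩
    have ha0 : a ≠ 0 := by
      intro h0
      rw [h0] at ha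
      simp at ha
    have hb0 : b ≠ 0 := by
      intro h0
      rw [h0] at hb
      simp at hb
    obtain ⟨c, rfl⟩ := Fin.exists_succ_eq.2 ha0
    obtain ⟨d, rfl⟩ := Fin.exists_succ_eq.2 hb0
    rw [cons_succ, cons_succ, Fin.succAbove_lt_succAbove_iff] at h
    exact ⟨c, d, by simpa using ha, by simpa using hb, h⟩
  · rintro ⟨c, d, hc, hd, h⟩
    refine ⟨c.succ, d.succ, by simp [hc], by simp [hd], ?_⟩
    rw [cons_succ, cons_succ, Fin.succAbove_lt_succAbove_iff]
    exact h

theorem ex_cons {n : ℕ} (s : Prop) (k : Fin (n + 1)) (σ : Equiv.Perm (Fin n)) (i : ℕ) :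
    ex s (cons k σ) (i + 1) ↔ ex (fd k.val σ) σ i := by
  cases i with
  | zero => exact des_cons_zero k σ
  | succ i => exact des_cons_succ k σ i

theorem good_cons {n : ℕ} (S : Set ℕ) (s : Prop) (k : Fin (n + 1)) (σ : Equiv.Perm (Fin n)) :
    Good S s (cons k σ) ↔ GG S s k.val σ := by
  constructor
  · intro h
    refine ⟨?_, fun i => ?_⟩
    · have := h 0
      rw [ex_cons] at this
      exact this
    · have := h (i + 1)
      rw [ex_cons, ex_cons] at this
      exact this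
  · rintro ⟨h0, h⟩ i
    cases i with
    | zero =>
      rw [ex_cons]
      exact h0
    | succ i =>
      rw [ex_cons, ex_cons]
      exact h i

theorem fd_cons {n : ℕ} (k : ℕ) (j : Fin (n + 1)) (σ : Equiv.Perm (Fin n)) :
    fd k (cons j σ) ↔ j.val < k := by
  constructor
  · rintro ⟨b, hb, h⟩
    have : b = 0 := Fin.ext hb
    subst this
    rwa [cons_zero] at h
  · intro h
    exact ⟨0, rfl, by rwa [cons_zero]⟩

open Classical in
noncomputable def ind (p : Prop) : ℝ := if p then 1 else 0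

theorem ind_true {p : Prop} (h : p) : ind p = 1 := by simp [ind, h]
theorem ind_false {p : Prop} (h : ¬ p) : ind p = 0 := by simp [ind, h]
theorem ind_nonneg (p : Prop) : 0 ≤ ind p := by
  by_cases h : p
  · rw [ind_true h]; norm_num
  · rw [ind_false h]
theorem ind_and (p q : Prop) : ind (p ∧ q) = ind p * ind q := by
  by_cases hp : p <;> by_cases hq : q <;> simp [ind, hp, hq]
theorem ind_congr {p q : Prop} (h : p ↔ q) : ind p = ind q := by
  rw [propext h]

noncomputable def cnt (S : Set ℕ) (s : Prop) (n k : ℕ) : ℝ :=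
  ∑ σ : Equiv.Perm (Fin n), ind (GG S s k σ)

theorem cnt_zero (S : Set ℕ) (s : Prop) (k : ℕ) : cnt S s 0 k = ind (S = ∅) := by
  unfold cnt
  rw [Fintype.sum_unique]
  apply ind_congr
  have hf : ∀ σ : Equiv.Perm (Fin 0), ¬ fd k σ := by
    rintro σ ⟨b, -⟩
    exact b.elim0
  have hd : ∀ (σ : Equiv.Perm (Fin 0)) (t : Prop) (i : ℕ), ¬ ex t σ (i + 1) := by
    rintro σ t i ⟨b, -⟩
    exact b.elim0
  constructor
  · rintro ⟨h0, h⟩
    ext i
    simp only [Set.mem_empty_iff_false, iff_false]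
    intro hi
    cases i with
    | zero => exact hf _ (h0.2 hi).2
    | succ i => exact hd _ _ _ ((h i).2 hi).2
  · rintro rfl
    refine ⟨⟨fun h => hf _ h.2, fun h => h.elim⟩, fun i => ⟨fun h => hd _ _ _ h.2, fun h => h.elim⟩⟩

noncomputable def lo (n : ℕ) (c : ℕ → ℝ) (k : ℕ) : ℝ :=
  ∑ j ∈ range (n + 1), if j < k then c j else 0

noncomputable def hi (n : ℕ) (c : ℕ → ℝ) (k : ℕ) : ℝ :=
  ∑ j ∈ range (n + 1), if j < k then 0 else c j

theorem cnt_succ (S : Set ℕ) (s : Prop) (n k : ℕ) :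
    cnt S s (n + 1) k = ind (s ↔ 0 ∈ S) * lo n (cnt (sh S) True n) k
      + ind (0 ∉ S) * hi n (cnt (sh S) False n) k := by
  unfold lo hi
  rw [mul_sum, mul_sum, ← sum_add_distrib, ← Fin.sum_univ_eq_sum_range
    (fun j => (ind (s ↔ 0 ∈ S) * if j < k then cnt (sh S) True n j else 0) +
      ind (0 ∉ S) * if j < k then 0 else cnt (sh S) False n j)]
  unfold cnt
  rw [← (cons_bij n).sum_comp (fun σ => ind (GG S s k σ)), Fintype.sum_prod_type]
  refine sum_congr rfl fun j _ => ?_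
  by_cases hj : j.val < k
  · rw [if_pos hj, if_pos hj, mul_zero, add_zero, mul_sum]
    refine sum_congr rfl fun τ _ => ?_
    rw [← ind_and]
    apply ind_congr
    have e : fd k (cons j τ) = True := propext ⟨fun _ => trivial, fun _ => (fd_cons k j τ).2 hj⟩
    show GG S s k (cons j τ) ↔ _
    unfold GG
    rw [e, good_cons, and_true]
    rfl
  · rw [if_neg hj, if_neg hj, mul_zero, zero_add, mul_sum]
    refine sum_congr rfl fun τ _ => ?_
    rw [← ind_and]
    apply ind_congr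
    have e : fd k (cons j τ) = False :=
      propext ⟨fun h => hj ((fd_cons k j τ).1 h), fun h => h.elim⟩
    show GG S s k (cons j τ) ↔ _
    unfold GG
    rw [e, good_cons, and_false, false_iff]
    rfl

theorem dd_iff {n : ℕ} (I : Set ℕ) (σ : Equiv.Perm (Fin n)) : DD σ = I ↔ GG I False 0 σ := by
  have e : fd 0 σ = False := propext ⟨fun ⟨_, _, h⟩ => absurd h (Nat.not_lt_zero _), fun h => h.elim⟩
  have key : ∀ i, (i + 1) ∈ DD σ ↔ (ex False σ i ∧ ex False σ (i + 1)) := by
    intro i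
    constructor
    · rintro ⟨a, b, c, ha, hb, hc, h1, h2⟩
      cases i with
      | zero => omega
      | succ i => exact ⟨⟨a, b, by omega, by omega, h1⟩, ⟨b, c, by omega, by omega, h2⟩⟩
    · rintro ⟨h1, h2⟩
      cases i with
      | zero => exact h1.elim
      | succ i =>
        obtain ⟨a, b, ha, hb, h1⟩ := h1
        obtain ⟨b', c, hb', hc, h2⟩ := h2
        have : b' = b := Fin.ext (by omega)
        subst this
        exact ⟨a, b', c, by omega, by omega, by omega, h1, h2⟩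
  have k0 : 0 ∉ DD σ := by
    rintro ⟨a, b, c, ha, -⟩
    omega
  unfold GG
  rw [e]
  constructor
  · rintro rfl
    exact ⟨⟨fun h => h.1.elim, fun h => (k0 h).elim⟩, fun i => (key i).symm⟩
  · rintro ⟨h0, h⟩
    ext i
    cases i with
    | zero => exact ⟨fun h => (k0 h).elim, fun h => (h0.2 h).1.elim⟩
    | succ i => exact (key i).trans (h i)

theorem dd_eq (I : Finset ℕ) (n : ℕ) : (dd I n : ℝ) = cnt (I : Set ℕ) False n 0 := by
  classical
  unfold dd cnt
  rw [Set.ncard_eq_toFinset_card', Set.toFinset_ofPred, Finset.card_filter]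
  push_cast
  refine sum_congr rfl fun σ _ => ?_
  by_cases h : DD σ = (I : Set ℕ)
  · rw [if_pos h, ind_true ((dd_iff _ _).1 h)]
  · rw [if_neg h, ind_false (fun h' => h ((dd_iff _ _).2 h'))]

noncomputable def B (n : ℕ) (c : ℕ → ℝ) (x : ℝ) : ℝ :=
  ∑ k ∈ range (n + 1), c k * (x ^ k / k.factorial * ((1 - x) ^ (n - k) / (n - k).factorial))

theorem B_cont (n : ℕ) (c : ℕ → ℝ) : Continuous (B n c) := by
  unfold B
  fun_prop

theorem B_zero (n : ℕ) (c : ℕ → ℝ) : B n c 0 = c 0 / n.factorial := by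
  unfold B
  rw [sum_range_succ']
  simp [div_eq_mul_inv]

theorem B_one (n : ℕ) (c : ℕ → ℝ) : B n c 1 = c n / n.factorial := by
  unfold B
  rw [sum_range_succ, sum_eq_zero]
  · simp [div_eq_mul_inv]
  · intro k hk
    have : n - k ≠ 0 := by
      have := mem_range.1 hk
      omega
    simp [this]

theorem fac_step (k : ℕ) (y : ℝ) :
    ((k + 1 : ℕ) : ℝ) * y ^ (k + 1 - 1) / (k + 1).factorial = y ^ k / k.factorial := by
  rw [Nat.factorial_succ]
  have h1 : (k.factorial : ℝ) ≠ 0 := by exact_mod_cast k.factorial_ne_zero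
  have h2 : ((k + 1 : ℕ) : ℝ) ≠ 0 := by exact_mod_cast k.succ_ne_zero
  rw [Nat.cast_mul, Nat.add_sub_cancel]
  field_simp

theorem B_deriv (n : ℕ) (c : ℕ → ℝ) (x : ℝ) :
    HasDerivAt (B (n + 1) c) (B n (fun k => c (k + 1) - c k) x) x := by
  have h : ∀ k ∈ range (n + 2), HasDerivAt
      (fun x : ℝ => c k * (x ^ k / k.factorial * ((1 - x) ^ (n + 1 - k) / (n + 1 - k).factorial)))
      (c k * ((k : ℝ) * x ^ (k - 1) / k.factorial * ((1 - x) ^ (n + 1 - k) / (n + 1 - k).factorial))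
        - c k * (x ^ k / k.factorial *
          (((n + 1 - k : ℕ) : ℝ) * (1 - x) ^ (n + 1 - k - 1) / (n + 1 - k).factorial))) x := by
    intro k _
    have h1 := (hasDerivAt_pow k x).div_const (k.factorial : ℝ)
    have h2 := ((((hasDerivAt_id x).const_sub 1).pow (n + 1 - k))).div_const
      ((n + 1 - k).factorial : ℝ)
    have h3 := (h1.mul h2).const_mul (c k)
    refine h3.congr_deriv ?_
    simp only [id, Pi.pow_apply]
    ring
  have h4 := HasDerivAt.fun_sum h
  refine h4.congr_deriv (Eq.symm ?_)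
  unfold B
  rw [sum_sub_distrib, sum_range_succ' _ (n + 1), sum_range_succ _ (n + 1)]
  simp only [Nat.cast_zero, zero_mul, zero_div, mul_zero, add_zero, Nat.sub_self]
  rw [← sum_sub_distrib]
  refine sum_congr rfl fun k hk => ?_
  have hk' : n + 1 - k = (n - k) + 1 := by
    have := mem_range.1 hk
    omega
  have hk2 : n + 1 - (k + 1) = n - k := by omega
  rw [hk', hk2, fac_step, fac_step]
  ring

theorem B_congr (n : ℕ) {c d : ℕ → ℝ} (h : ∀ k, k ≤ n → c k = d k) : B n c = B n d := by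
  funext x
  unfold B
  refine sum_congr rfl fun k hk => ?_
  rw [h k (Nat.lt_succ_iff.1 (mem_range.1 hk))]

theorem B_lin (n : ℕ) (a b : ℝ) (c d : ℕ → ℝ) (x : ℝ) :
    B n (fun k => a * c k + b * d k) x = a * B n c x + b * B n d x := by
  unfold B
  rw [mul_sum, mul_sum, ← sum_add_distrib]
  refine sum_congr rfl fun k _ => ?_
  ring

theorem lo_diff (n : ℕ) (c : ℕ → ℝ) (k : ℕ) (hk : k ≤ n) : lo n c (k + 1) - lo n c k = c k := by
  unfold lo
  rw [← sum_sub_distrib, sum_eq_single k]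
  · simp
  · intro j _ hj
    by_cases h : j < k
    · rw [if_pos h, if_pos (by omega), sub_self]
    · rw [if_neg h, if_neg (by omega), sub_self]
  · intro h
    exact absurd (mem_range.2 (by omega)) h

theorem hi_diff (n : ℕ) (c : ℕ → ℝ) (k : ℕ) (hk : k ≤ n) :
    hi n c (k + 1) - hi n c k = (-1) * c k + 0 * c k := by
  unfold hi
  rw [← sum_sub_distrib, sum_eq_single k]
  · simp
  · intro j _ hj
    by_cases h : j < k
    · rw [if_pos h, if_pos (by omega), sub_self]
    · rw [if_neg h, if_neg (by omega), sub_self]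
  · intro h
    exact absurd (mem_range.2 (by omega)) h

theorem B_lo (n : ℕ) (c : ℕ → ℝ) (x : ℝ) : B (n + 1) (lo n c) x = ∫ y in (0 : ℝ)..x, B n c y := by
  have h : ∀ y, HasDerivAt (B (n + 1) (lo n c)) (B n c y) y := by
    intro y
    have := B_deriv n (lo n c) y
    rwa [B_congr n (lo_diff n c)] at this
  rw [intervalIntegral.integral_eq_sub_of_hasDerivAt (fun y _ => h y)
    ((B_cont n c).intervalIntegrable _ _), B_zero]
  simp [lo]

theorem B_hi (n : ℕ) (c : ℕ → ℝ) (x : ℝ) : B (n + 1) (hi n c) x = ∫ y in x..(1 : ℝ), B n c y := by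
  have h : ∀ y, HasDerivAt (fun y => - B (n + 1) (hi n c) y) (B n c y) y := by
    intro y
    have := B_deriv n (hi n c) y
    rw [B_congr n (hi_diff n c), B_lin] at this
    refine this.neg.congr_deriv ?_
    ring
  rw [intervalIntegral.integral_eq_sub_of_hasDerivAt (fun y _ => h y)
    ((B_cont n c).intervalIntegrable _ _), B_one]
  have : hi n c (n + 1) = 0 := by
    unfold hi
    refine sum_eq_zero fun j hj => ?_
    rw [if_pos (mem_range.1 hj)]
  rw [this]
  simp

noncomputable def P (S : Set ℕ) (s : Prop) (n : ℕ) : ℝ → ℝ := B n (cnt S s n)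

theorem P_cont (S : Set ℕ) (s : Prop) (n : ℕ) : Continuous (P S s n) := B_cont _ _

theorem P_zero (S : Set ℕ) (s : Prop) (x : ℝ) : P S s 0 x = ind (S = ∅) := by
  simp [P, B, cnt_zero]

theorem P_succ (S : Set ℕ) (s : Prop) (n : ℕ) (x : ℝ) :
    P S s (n + 1) x = ind (s ↔ 0 ∈ S) * (∫ y in (0 : ℝ)..x, P (sh S) True n y)
      + ind (0 ∉ S) * ∫ y in x..(1 : ℝ), P (sh S) False n y := by
  unfold P
  rw [B_congr (n + 1) (fun k _ => cnt_succ S s n k), B_lin, B_lo, B_hi]

theorem P_dd (I : Finset ℕ) (n : ℕ) : P (I : Set ℕ) False n 0 = (dd I n : ℝ) / n.factorial := by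
  unfold P
  rw [B_zero, dd_eq]

end Pool.Agent.Lib.MP_ff54ac_co
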