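import Mathlib

namespace Pool.Agent.Lib.MP_ff54ac_co

open Finset Complex

noncomputable def x0 : ℝ := 2 * Real.pi * √3 / 9

theorem x0_pos : 0 < x0 := by
  unfold x0
  have := Real.pi_pos
  positivity

theorem sq3 : √3 * √3 = (3 : ℝ) := Real.mul_self_sqrt (by norm_num)

theorem x0_lt : x0 < 5 / 4 := by
  unfold x0
  have h1 := Real.pi_lt_d2
  have h2 : √3 < 1.74 := by
    rw [Real.sqrt_lt' (by norm_num)]
    norm_num
  have h3 := Real.pi_pos
  have h4 : (0 : ℝ) ≤ √3 := Real.sqrt_nonneg 3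
  nlinarith

theorem r_x0 : √3 * x0 / 2 = Real.pi / 3 := by
  unfold x0
  linear_combination (Real.pi / 9) * sq3

def e : ℕ → ℝ
  | 0 => 1
  | 1 => -1
  | (j + 2) => - e (j + 1) - e j

noncomputable def om : ℂ := -1 / 2 + ((√3 / 2 : ℝ) : ℂ) * I

theorem om_sq : om ^ 2 + om + 1 = 0 := by
  unfold om
  have h : ((√3 : ℝ) : ℂ) * ((√3 : ℝ) : ℂ) = 3 := by exact_mod_cast sq3
  push_cast
  linear_combination (I ^ 2 / 4) * h + (3 / 4) * I_sq

theorem om_ne : 1 - om ≠ 0 := by
  intro h
  have h1 : om = 1 := by linear_combination -h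
  have := om_sq
  rw [h1] at this
  norm_num at this

theorem exp_third : exp (((Real.pi / 3 : ℝ) : ℂ) * I) = 1 + om := by
  rw [exp_mul_I, ← ofReal_cos, ← ofReal_sin, Real.cos_pi_div_three, Real.sin_pi_div_three]
  unfold om
  push_cast
  ring

noncomputable def th : ℂ := 2 * (((Real.pi / 3 : ℝ) : ℂ) * I)

theorem exp_th : exp th = om := by
  unfold th
  rw [two_mul, exp_add, exp_third]
  linear_combination om_sq

theorem th_eq : th = (2 * om + 1) * x0 := by
  unfold th om
  rw [← r_x0]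
  push_cast
  ring

theorem th_ne : th ≠ 0 := by
  unfold th
  have : Real.pi / 3 ≠ 0 := by
    have := Real.pi_pos
    positivity
  exact mul_ne_zero two_ne_zero (mul_ne_zero (ofReal_ne_zero.2 this) I_ne_zero)

noncomputable def bb : ℂ := (-1 - om) * x0

theorem bb_eq : bb = ((-x0 / 2 : ℝ) : ℂ) - ((Real.pi / 3 : ℝ) : ℂ) * I := by
  unfold bb om
  rw [← r_x0]
  push_cast
  ring

noncomputable def E (z : ℂ) : ℂ := exp (om * x0 * z) - om * exp (bb * z)

theorem E_fac (z : ℂ) : E z = exp (bb * z) * (exp (th * z) - exp th) := by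
  unfold E
  rw [exp_th, mul_sub, ← exp_add, th_eq]
  unfold bb
  rw [show (-1 - om) * x0 * z + (2 * om + 1) * x0 * z = om * x0 * z by ring]
  ring

theorem E_zero_iff (z : ℂ) : E z = 0 ↔ ∃ k : ℤ, z = 1 + 3 * k := by
  rw [E_fac, mul_eq_zero, or_iff_right (exp_ne_zero _), sub_eq_zero, exp_eq_exp_iff_exists_int]
  refine exists_congr fun k => ?_
  have h : (2 * Real.pi * I : ℂ) = 3 * th := by
    unfold th
    push_cast
    ring
  rw [h]
  constructor
  · intro h1
    apply mul_left_cancel₀ th_ne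
    linear_combination h1
  · rintro rfl
    ring

theorem E_deriv (z : ℂ) :
    HasDerivAt E (exp (om * x0 * z) * (om * x0) - om * (exp (bb * z) * bb)) z := by
  have h1 := ((hasDerivAt_id z).const_mul (om * x0)).cexp
  have h2 := (((hasDerivAt_id z).const_mul bb).cexp).const_mul om
  refine (h1.sub h2).congr_deriv ?_
  simp

theorem E_diff : Differentiable ℂ E := fun z => (E_deriv z).differentiableAt

theorem E_deriv_zero (z : ℂ) (hz : E z = 0) : HasDerivAt E (th * om * exp (bb * z)) z := by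
  refine (E_deriv z).congr_deriv ?_
  have h : exp (om * x0 * z) = om * exp (bb * z) := sub_eq_zero.1 hz
  rw [h, th_eq]
  generalize exp (bb * z) = t
  unfold bb
  ring

theorem E_one : E 1 = 0 := (E_zero_iff 1).2 ⟨0, by simp⟩
theorem E_two : E (-2) = 0 := (E_zero_iff (-2)).2 ⟨-1, by push_cast; ring⟩

theorem E_d_one : HasDerivAt E (-(1 - om) * (x0 * Real.exp (-x0 / 2) : ℝ)) 1 := by
  refine (E_deriv_zero 1 E_one).congr_deriv ?_
  have h : exp bb * (1 + om) = (Real.exp (-x0 / 2) : ℝ) := by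
    rw [← exp_third, ← exp_add, bb_eq, ofReal_exp]
    congr 1
    ring
  rw [mul_one, th_eq, ofReal_mul, ← h]
  linear_combination (x0 * exp bb) * om_sq

theorem E_d_two : HasDerivAt E ((1 - om) * (x0 * Real.exp x0 : ℝ)) (-2) := by
  refine (E_deriv_zero (-2) E_two).congr_deriv ?_
  have h : exp (bb * (-2)) = (Real.exp x0 : ℝ) * om := by
    rw [← exp_th, ofReal_exp, ← exp_add, bb_eq]
    congr 1
    unfold th
    push_cast
    ring
  rw [h, th_eq, ofReal_mul]
  linear_combination (x0 * (Real.exp x0 : ℝ) * (2 * om - 1)) * om_sq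

theorem pow_e (j : ℕ) : om ^ j - om * (-1 - om) ^ j = (1 - om) * e j ∧
    om ^ (j + 1) - om * (-1 - om) ^ (j + 1) = (1 - om) * e (j + 1) := by
  induction j with
  | zero =>
    constructor
    · simp [e]
    · simp only [e]
      push_cast
      linear_combination om_sq
  | succ j ih =>
    refine ⟨ih.2, ?_⟩
    have h : e (j + 1 + 1) = - e (j + 1) - e j := rfl
    rw [h]
    push_cast
    linear_combination (-1) * ih.1 - ih.2 + (om ^ j - om * (-1 - om) ^ j) * om_sq

theorem E_iter (j : ℕ) : iteratedDeriv j E 0 = (1 - om) * (x0 ^ j * e j) := by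
  have h : E = fun z => exp (om * x0 * z) - om * exp (bb * z) := rfl
  rw [h, iteratedDeriv_fun_sub (by fun_prop) (by fun_prop), iteratedDeriv_const_mul_field,
    iteratedDeriv_cexp_const_mul, iteratedDeriv_cexp_const_mul]
  simp only [mul_zero, exp_zero, mul_one]
  unfold bb
  rw [mul_pow, mul_pow]
  linear_combination (x0 : ℂ) ^ j * (pow_e j).1

theorem dsl2 (F : ℂ → ℂ) (a b z : ℂ) :
    F z = F a + (z - a) * (dslope F a b + (z - b) * dslope (dslope F a) b z) := by
  have h1 := sub_smul_dslope F a z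
  have h2 := sub_smul_dslope (dslope F a) b z
  rw [smul_eq_mul] at h1 h2
  rw [h2]
  linear_combination -h1

noncomputable def H : ℂ → ℂ := dslope (dslope E 1) (-2)

theorem H_diff : Differentiable ℂ H := by
  rw [← differentiableOn_univ]
  unfold H
  rw [differentiableOn_dslope Filter.univ_mem, differentiableOn_dslope Filter.univ_mem]
  exact E_diff.differentiableOn

theorem E_H (z : ℂ) : E z = (z - 1) * ((z + 2) * H z) := by
  have h1 := dsl2 E 1 (-2) z
  have h2 := sub_smul_dslope E 1 (-2)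
  rw [smul_eq_mul, E_one, E_two] at h2
  have h3 : dslope E 1 (-2) = 0 := by linear_combination (-1 / 3) * h2
  rw [E_one, h3] at h1
  unfold H
  linear_combination h1

theorem E_H_deriv (z : ℂ) :
    HasDerivAt E ((z + 2) * H z + (z - 1) * (H z + (z + 2) * deriv H z)) z := by
  have h : E = fun z => (z - 1) * ((z + 2) * H z) := funext E_H
  rw [h]
  have h1 := ((hasDerivAt_id z).sub_const 1).mul
    (((hasDerivAt_id z).add_const 2).mul (H_diff z).hasDerivAt)
  refine h1.congr_deriv ?_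
  simp

theorem H_one : 3 * H 1 = -(1 - om) * (x0 * Real.exp (-x0 / 2) : ℝ) := by
  have := (E_H_deriv 1).unique E_d_one
  linear_combination this

theorem H_two : -3 * H (-2) = (1 - om) * (x0 * Real.exp x0 : ℝ) := by
  have := (E_H_deriv (-2)).unique E_d_two
  linear_combination this

theorem c1_ne : ((x0 * Real.exp (-x0 / 2) : ℝ) : ℂ) ≠ 0 :=
  ofReal_ne_zero.2 (mul_pos x0_pos (Real.exp_pos _)).ne'

theorem c2_ne : ((x0 * Real.exp x0 : ℝ) : ℂ) ≠ 0 :=
  ofReal_ne_zero.2 (mul_pos x0_pos (Real.exp_pos _)).ne'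

theorem H_ne (z : ℂ) (hz : z ∈ Metric.ball (0 : ℂ) 4) : H z ≠ 0 := by
  intro h
  have h1 : E z = 0 := by rw [E_H, h]; simp
  obtain ⟨k, rfl⟩ := (E_zero_iff z).1 h1
  rw [mem_ball_zero_iff] at hz
  have h2 : ((1 : ℂ) + 3 * k) = ((1 + 3 * k : ℤ) : ℂ) := by push_cast; ring
  rw [h2, norm_intCast] at hz
  have h3 : |1 + 3 * k| < 4 := by exact_mod_cast hz
  rw [abs_lt] at h3
  have h4 : k = 0 ∨ k = -1 := by omega
  rcases h4 with rfl | rfl
  · have h5 := H_one
    have : ((1 : ℂ) + 3 * ((0 : ℤ) : ℂ)) = 1 := by simp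
    rw [this] at h
    rw [h, mul_zero] at h5
    exact mul_ne_zero (neg_ne_zero.2 om_ne) c1_ne h5.symm
  · have h5 := H_two
    have : ((1 : ℂ) + 3 * ((-1 : ℤ) : ℂ)) = -2 := by push_cast; ring
    rw [this] at h
    rw [h, mul_zero] at h5
    exact mul_ne_zero om_ne c2_ne h5.symm

noncomputable def W (z : ℂ) : ℂ := (1 - om) / H z

theorem W_diff : DifferentiableOn ℂ W (Metric.ball 0 4) :=
  (differentiableOn_const _).div H_diff.differentiableOn H_ne

noncomputable def K : ℂ → ℂ := dslope (dslope W 1) (-2)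

theorem mem1 : Metric.ball (0 : ℂ) 4 ∈ nhds (1 : ℂ) :=
  Metric.isOpen_ball.mem_nhds (by rw [mem_ball_zero_iff]; norm_num)

theorem mem2 : Metric.ball (0 : ℂ) 4 ∈ nhds (-2 : ℂ) :=
  Metric.isOpen_ball.mem_nhds (by rw [mem_ball_zero_iff]; norm_num)

theorem K_diff : DifferentiableOn ℂ K (Metric.ball 0 4) := by
  unfold K
  rw [differentiableOn_dslope mem2, differentiableOn_dslope mem1]
  exact W_diff

noncomputable def uu : ℝ := (x0 * Real.exp (-x0 / 2))⁻¹
noncomputable def vv : ℝ := (x0 * Real.exp x0)⁻¹ / 2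

theorem uu_pos : 0 < uu := inv_pos.2 (mul_pos x0_pos (Real.exp_pos _))
theorem vv_pos : 0 < vv := half_pos (inv_pos.2 (mul_pos x0_pos (Real.exp_pos _)))

theorem W_one : W 1 = -3 * uu := by
  unfold W uu
  have h := H_one
  have h1 := H_ne 1 (mem_of_mem_nhds mem1)
  have h2 := c1_ne
  rw [ofReal_inv]
  generalize ((x0 * Real.exp (-x0 / 2) : ℝ) : ℂ) = c at h h2
  field_simp
  linear_combination h

theorem W_two : W (-2) = -6 * vv := by
  unfold W vv
  have h := H_two
  have h1 := H_ne (-2) (mem_of_mem_nhds mem2)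
  have h2 := c2_ne
  rw [ofReal_div, ofReal_inv]
  generalize ((x0 * Real.exp x0 : ℝ) : ℂ) = c at h h2
  push_cast
  field_simp
  linear_combination (-2) * h

noncomputable def A (z : ℂ) : ℂ :=
  (uu : ℂ) * ((-1) * z + 1)⁻¹ + (vv : ℂ) * ((1 / 2) * z + 1)⁻¹ + K z

theorem E_A (z : ℂ) (hz : z ∈ Metric.ball (0 : ℂ) 1) : E z * A z = 1 - om := by
  rw [mem_ball_zero_iff] at hz
  have h1 : z - 1 ≠ 0 := by
    intro h
    rw [sub_eq_zero.1 h] at hz
    simp at hz
  have h2 : z + 2 ≠ 0 := by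
    intro h
    have : z = -2 := by linear_combination h
    rw [this] at hz
    norm_num at hz
  have h3 : H z ≠ 0 := H_ne z (by rw [mem_ball_zero_iff]; linarith)
  have h4 := dsl2 W 1 (-2) z
  have h5 := sub_smul_dslope W 1 (-2)
  rw [smul_eq_mul, W_one, W_two] at h5
  have h6 : dslope W 1 (-2) = 2 * vv - uu := by linear_combination (-1 / 3) * h5
  rw [W_one, h6] at h4
  have h7 : H z * W z = 1 - om := by
    unfold W
    field_simp
  have h8 : (z - 1) * ((-1) * z + 1)⁻¹ = -1 := by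
    have : (-1) * z + 1 = -(z - 1) := by ring
    rw [this]
    field_simp
  have h9 : (z + 2) * ((1 / 2) * z + 1)⁻¹ = 2 := by
    have : (1 / 2) * z + 1 = (z + 2) / 2 := by ring
    rw [this]
    field_simp
  rw [E_H, ← h7, h4]
  unfold A K
  linear_combination (H z * (z + 2) * uu) * h8 + (H z * (z - 1) * vv) * h9

theorem K_smooth (n : ℕ) : ContDiffAt ℂ n K 0 :=
  (K_diff.analyticAt (Metric.ball_mem_nhds 0 (by norm_num))).contDiffAt

theorem inv_smooth (n : ℕ) (c : ℂ) : ContDiffAt ℂ n (fun z : ℂ => (c * z + 1)⁻¹) 0 :=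
  ContDiffAt.inv (by fun_prop) (by simp)

theorem inv_iter (n : ℕ) (c : ℂ) :
    iteratedDeriv n (fun z : ℂ => (c * z + 1)⁻¹) 0 = n.factorial * (-c) ^ n := by
  rw [iteratedDeriv_eq_iterate, iter_deriv_inv_linear]
  simp only [mul_zero, zero_add, one_zpow, mul_one]
  rw [neg_pow c]
  ring

theorem A_smooth (n : ℕ) : ContDiffAt ℂ n A 0 :=
  ((contDiffAt_const.mul (inv_smooth n _)).add (contDiffAt_const.mul (inv_smooth n _))).add
    (K_smooth n)

theorem A_iter (n : ℕ) : iteratedDeriv n A 0 =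
    n.factorial * (uu + vv * (-1 / 2) ^ n) + iteratedDeriv n K 0 := by
  have h : A = fun z => ((uu : ℂ) * ((-1) * z + 1)⁻¹ + (vv : ℂ) * ((1 / 2) * z + 1)⁻¹) + K z := rfl
  rw [h, iteratedDeriv_fun_add ((contDiffAt_const.mul (inv_smooth n _)).add
    (contDiffAt_const.mul (inv_smooth n _))) (K_smooth n),
    iteratedDeriv_fun_add (contDiffAt_const.mul (inv_smooth n _))
      (contDiffAt_const.mul (inv_smooth n _)),
    iteratedDeriv_const_mul_field, iteratedDeriv_const_mul_field, inv_iter, inv_iter]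
  rw [neg_neg, one_pow, neg_div]
  ring

theorem A_conv (n : ℕ) : ∑ i ∈ range (n + 1),
    ((n.choose i : ℂ) * (x0 ^ i * e i)) * iteratedDeriv (n - i) A 0 = if n = 0 then 1 else 0 := by
  have h1 : (fun z => E z * A z) =ᶠ[nhds 0] fun _ => 1 - om :=
    Filter.eventually_of_mem (Metric.ball_mem_nhds 0 one_pos) E_A
  have h2 := h1.iteratedDeriv_eq n
  rw [iteratedDeriv_fun_mul (E_diff.contDiff.contDiffAt) (A_smooth n), iteratedDeriv_const] at h2
  apply mul_left_cancel₀ om_ne
  rw [mul_sum, mul_ite, mul_one, mul_zero, ← h2]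
  refine sum_congr rfl fun i _ => ?_
  rw [E_iter]
  ring

theorem conv_unique (w : ℕ → ℕ → ℂ) (hw : ∀ n, w n 0 = 1) (β γ : ℕ → ℂ)
    (h : ∀ n, ∑ i ∈ range (n + 1), w n i * β (n - i) = ∑ i ∈ range (n + 1), w n i * γ (n - i))
    (n : ℕ) : β n = γ n := by
  induction n using Nat.strong_induction_on with
  | _ n ih =>
    have h1 := h n
    rw [sum_range_succ', sum_range_succ', hw, one_mul, one_mul, Nat.sub_zero] at h1
    have h2 : ∑ i ∈ range n, w n (i + 1) * β (n - (i + 1)) =
        ∑ i ∈ range n, w n (i + 1) * γ (n - (i + 1)) := by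
      refine sum_congr rfl fun i hi => ?_
      have := mem_range.1 hi
      rw [ih _ (by omega)]
    rw [h2] at h1
    exact add_left_cancel h1

theorem pole (α : ℕ → ℝ)
    (h : ∀ n, ∑ j ∈ range (n + 1), α (n - j) * e j / j.factorial = if n = 0 then 1 else 0) :
    ∃ C : ℝ, ∀ n, |x0 ^ n * α n - uu - vv * (-1 / 2) ^ n| ≤ C / 3 ^ n := by
  have hs : Metric.closedBall (0 : ℂ) 3 ⊆ Metric.ball 0 4 :=
    Metric.closedBall_subset_ball (by norm_num)
  obtain ⟨C, hC⟩ := (isCompact_closedBall (0 : ℂ) 3).exists_bound_of_continuousOn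
    (K_diff.continuousOn.mono hs)
  have hd : DiffContOnCl ℂ K (Metric.ball 0 3) :=
    K_diff.diffContOnCl_ball hs
  refine ⟨C, fun n => ?_⟩
  have h1 := norm_iteratedDeriv_le_of_forall_mem_sphere_norm_le n (by norm_num) hd
    (fun z hz => hC z (Metric.sphere_subset_closedBall hz))
  have h2 : iteratedDeriv n A 0 = ((n.factorial * (x0 ^ n * α n) : ℝ) : ℂ) := by
    refine conv_unique (fun n i => (n.choose i : ℂ) * (x0 ^ i * e i)) (fun n => by simp [e])
      (fun n => iteratedDeriv n A 0) (fun n => ((n.factorial * (x0 ^ n * α n) : ℝ) : ℂ))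
      (fun n => ?_) n
    rw [A_conv]
    have h3 : ∑ i ∈ range (n + 1), (n.choose i : ℝ) * (x0 ^ i * e i) *
        ((n - i).factorial * (x0 ^ (n - i) * α (n - i))) = if n = 0 then 1 else 0 := by
      have h4 : ∑ i ∈ range (n + 1), (n.choose i : ℝ) * (x0 ^ i * e i) *
          ((n - i).factorial * (x0 ^ (n - i) * α (n - i))) =
          n.factorial * x0 ^ n * ∑ j ∈ range (n + 1), α (n - j) * e j / j.factorial := by
        rw [mul_sum]
        refine sum_congr rfl fun i hi => ?_
        have hi' : i ≤ n := Nat.lt_succ_iff.1 (mem_range.1 hi)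
        have h5 : (n.choose i : ℝ) * i.factorial * (n - i).factorial = n.factorial := by
          exact_mod_cast Nat.choose_mul_factorial_mul_factorial hi'
        have h6 : x0 ^ n = x0 ^ i * x0 ^ (n - i) := by
          rw [← pow_add, Nat.add_sub_cancel' hi']
        have h7 : (i.factorial : ℝ) ≠ 0 := by exact_mod_cast i.factorial_ne_zero
        rw [← h5, h6]
        field_simp
      rw [h4, h]
      by_cases hn : n = 0
      · subst hn
        simp
      · simp [hn]
    have h8 := congrArg (fun t : ℝ => (t : ℂ)) h3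
    push_cast at h8 ⊢
    rw [h8]
    split_ifs <;> simp
  have h3 : iteratedDeriv n K 0 =
      ((n.factorial * (x0 ^ n * α n - uu - vv * (-1 / 2) ^ n) : ℝ) : ℂ) := by
    rw [A_iter] at h2
    push_cast at h2 ⊢
    linear_combination h2
  rw [h3, norm_real, Real.norm_eq_abs, abs_mul, Nat.abs_cast, mul_div_assoc] at h1
  have h4 : (0 : ℝ) < n.factorial := by exact_mod_cast n.factorial_pos
  exact le_of_mul_le_mul_left h1 h4

end Pool.Agent.Lib.MP_ff54ac_co
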