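import Mathlib
import Pool.Agent.Lib.MP_ff54ac_co.Comb
import Pool.Agent.Lib.MP_ff54ac_co.Pole

namespace Pool.Agent.Lib.MP_ff54ac_co

open Finset

theorem sh_empty : sh ∅ = ∅ := rfl

noncomputable def al (n : ℕ) : ℝ := P ∅ False n 0

theorem ii {h : ℝ → ℝ} (hc : Continuous h) (a b : ℝ) :
    IntervalIntegrable h MeasureTheory.volume a b := hc.intervalIntegrable a b

theorem int_lin (a b : ℝ) {h k : ℝ → ℝ} (hc : Continuous h) (kc : Continuous k) (s t : ℝ) :
    ∫ y in s..t, (a * h y + b * k y) = a * (∫ y in s..t, h y) + b * ∫ y in s..t, k y := by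
  rw [intervalIntegral.integral_add ((ii hc _ _).const_mul a) ((ii kc _ _).const_mul b),
    intervalIntegral.integral_const_mul, intervalIntegral.integral_const_mul]

theorem lin_cont (a b : ℝ) {h k : ℝ → ℝ} (hc : Continuous h) (kc : Continuous k) :
    Continuous fun y => a * h y + b * k y := by fun_prop

theorem f_rec (n : ℕ) (x : ℝ) : P ∅ False (n + 1) x =
    (∫ y in (0 : ℝ)..x, P ∅ True n y) + ∫ y in x..(1 : ℝ), P ∅ False n y := by
  rw [P_succ, sh_empty, ind_true (by simp), ind_true (by simp), one_mul, one_mul]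

theorem g_rec (n : ℕ) (x : ℝ) : P ∅ True (n + 1) x = ∫ y in x..(1 : ℝ), P ∅ False n y := by
  rw [P_succ, sh_empty, ind_false (by simp), ind_true (by simp), one_mul, zero_mul, zero_add]

theorem al_zero : al 0 = 1 := by
  unfold al
  rw [P_zero, ind_true rfl]

theorem al_succ (n : ℕ) : al (n + 1) = ∫ y in (0 : ℝ)..1, P ∅ False n y := by
  unfold al
  rw [f_rec]
  simp

theorem g_rec' (n : ℕ) (x : ℝ) :
    P ∅ True (n + 1) x = al (n + 1) - ∫ y in (0 : ℝ)..x, P ∅ False n y := by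
  have h := intervalIntegral.integral_add_adjacent_intervals (a := 0) (b := x) (c := 1)
    (ii (P_cont ∅ False n) _ _) (ii (P_cont ∅ False n) _ _)
  rw [g_rec, al_succ]
  linarith

theorem f_rec' (n : ℕ) (x : ℝ) : P ∅ False (n + 1) x =
    al (n + 1) + ((∫ y in (0 : ℝ)..x, P ∅ True n y) - ∫ y in (0 : ℝ)..x, P ∅ False n y) := by
  rw [f_rec, ← g_rec, g_rec']
  ring

theorem int_sum (n : ℕ) (c : ℕ → ℝ) (x : ℝ) :
    ∫ y in (0 : ℝ)..x, ∑ j ∈ range n, c j * (y ^ j / j.factorial) =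
      ∑ j ∈ range n, c j * (x ^ (j + 1) / (j + 1).factorial) := by
  rw [intervalIntegral.integral_finsetSum (fun j _ => ii (by fun_prop) _ _)]
  refine sum_congr rfl fun j _ => ?_
  rw [intervalIntegral.integral_const_mul, intervalIntegral.integral_div, integral_pow,
    Nat.factorial_succ]
  have h1 : (j.factorial : ℝ) ≠ 0 := by exact_mod_cast j.factorial_ne_zero
  have h2 : (j : ℝ) + 1 ≠ 0 := by positivity
  push_cast
  simp only [ne_eq, Nat.add_eq_zero_iff, one_ne_zero, and_false, not_false_eq_true, zero_pow,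
    sub_zero]
  field_simp

theorem fg_formula (n : ℕ) :
    (P ∅ True n = fun x => ∑ j ∈ range (n + 1), (al (n - j) * e j) * (x ^ j / j.factorial)) ∧
    (P ∅ False n =
      fun x => ∑ j ∈ range (n + 1), (al (n - j) * (- e (j + 1))) * (x ^ j / j.factorial)) := by
  induction n with
  | zero =>
    constructor <;> funext x <;> simp [P_zero, ind_true, al_zero, e]
  | succ n ih =>
    constructor
    · funext x
      rw [g_rec', ih.2, int_sum, sum_range_succ' _ (n + 1)]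
      simp only [Nat.add_sub_add_right, Nat.sub_zero, e, mul_neg, neg_mul, sum_neg_distrib]
      simp
      ring
    · funext x
      rw [f_rec', ih.1, ih.2, int_sum, int_sum, sum_range_succ' _ (n + 1), ← sum_sub_distrib]
      simp only [Nat.add_sub_add_right, Nat.sub_zero]
      have h : ∀ j, e (j + 1 + 1) = - e (j + 1) - e j := fun _ => rfl
      have h1 : e (0 + 1) = -1 := rfl
      rw [h1, add_comm]
      congr 1
      · refine sum_congr rfl fun j _ => ?_
        rw [h]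
        ring
      · simp

theorem al_conv (n : ℕ) :
    ∑ j ∈ range (n + 1), al (n - j) * e j / j.factorial = if n = 0 then 1 else 0 := by
  have h := congrFun (fg_formula n).1 1
  simp only [one_pow, mul_one_div] at h
  rw [← h]
  cases n with
  | zero => rw [P_zero, ind_true rfl, if_pos rfl]
  | succ n => rw [g_rec]; simp

noncomputable def Gt (t x : ℝ) : ℝ :=
  Real.exp (-t / 2 * x) * (Real.cos (√3 * t / 2 * x) - √3 / 3 * Real.sin (√3 * t / 2 * x))

noncomputable def Ft (t x : ℝ) : ℝ :=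
  Real.exp (-t / 2 * x) * (Real.cos (√3 * t / 2 * x) + √3 / 3 * Real.sin (√3 * t / 2 * x))

theorem Gt_cont (t : ℝ) : Continuous (Gt t) := by
  unfold Gt
  fun_prop

theorem Ft_cont (t : ℝ) : Continuous (Ft t) := by
  unfold Ft
  fun_prop

theorem Gt_deriv (t x : ℝ) : HasDerivAt (Gt t) (-t * Ft t x) x := by
  have h0 := (hasDerivAt_id x).const_mul (√3 * t / 2)
  have h1 := (((hasDerivAt_id x).const_mul (-t / 2)).exp).mul
    (h0.cos.sub (h0.sin.const_mul (√3 / 3)))
  refine h1.congr_deriv ?_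
  simp only [id, Pi.sub_apply, Ft]
  linear_combination
    (-(Real.exp (-t / 2 * x) * t * Real.cos (√3 * t / 2 * x)) / 6) * sq3

theorem Ft_deriv (t x : ℝ) : HasDerivAt (Ft t) (t * (Gt t x - Ft t x)) x := by
  have h0 := (hasDerivAt_id x).const_mul (√3 * t / 2)
  have h1 := (((hasDerivAt_id x).const_mul (-t / 2)).exp).mul
    (h0.cos.add (h0.sin.const_mul (√3 / 3)))
  refine h1.congr_deriv ?_
  simp only [id, Pi.add_apply, Ft, Gt]
  linear_combination
    ((Real.exp (-t / 2 * x) * t * Real.cos (√3 * t / 2 * x)) / 6) * sq3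

theorem Gt_int (t x : ℝ) : Gt t x = 1 - t * ∫ y in (0 : ℝ)..x, Ft t y := by
  have h := intervalIntegral.integral_eq_sub_of_hasDerivAt (a := 0) (b := x)
    (fun y _ => Gt_deriv t y) (ii (continuous_const.mul (Ft_cont t)) _ _)
  rw [intervalIntegral.integral_const_mul] at h
  have h0 : Gt t 0 = 1 := by simp [Gt]
  rw [h0] at h
  linarith

theorem Ft_int (t x : ℝ) :
    Ft t x = 1 + t * ((∫ y in (0 : ℝ)..x, Gt t y) - ∫ y in (0 : ℝ)..x, Ft t y) := by
  have h := intervalIntegral.integral_eq_sub_of_hasDerivAt (a := 0) (b := x)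
    (fun y _ => Ft_deriv t y) (ii (continuous_const.mul ((Gt_cont t).sub (Ft_cont t))) _ _)
  rw [intervalIntegral.integral_const_mul,
    intervalIntegral.integral_sub (ii (Gt_cont t) _ _) (ii (Ft_cont t) _ _)] at h
  have h0 : Ft t 0 = 1 := by simp [Ft]
  rw [h0] at h
  linarith

theorem Gt_trig (t x : ℝ) : Gt t x =
    2 * √3 / 3 * (Real.exp (-t / 2 * x) * Real.sin (Real.pi / 3 - √3 * t / 2 * x)) := by
  unfold Gt
  rw [Real.sin_sub, Real.sin_pi_div_three, Real.cos_pi_div_three]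
  linear_combination
    (-(Real.exp (-t / 2 * x) * Real.cos (√3 * t / 2 * x)) / 3) * sq3

noncomputable def G0 : ℝ → ℝ := Gt x0
noncomputable def G1 : ℝ → ℝ := Gt (-2 * x0)

theorem G0_cont : Continuous G0 := Gt_cont _
theorem G1_cont : Continuous G1 := Gt_cont _

theorem G0_eq (x : ℝ) : G0 x =
    2 * √3 / 3 * (Real.exp (-x0 / 2 * x) * Real.sin (Real.pi / 3 * (1 - x))) := by
  unfold G0
  rw [Gt_trig, r_x0]
  congr 3
  ring

theorem G1_eq (x : ℝ) : G1 x = G0 x *
    (Real.exp (3 * x0 / 2 * x) * (2 * Real.cos (Real.pi / 3 * (1 - x)))) := by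
  rw [G0_eq]
  unfold G1
  rw [Gt_trig]
  have h1 : Real.pi / 3 - √3 * (-2 * x0) / 2 * x = Real.pi - 2 * (Real.pi / 3 * (1 - x)) := by
    linear_combination (2 * x) * r_x0
  have h2 : -(-2 * x0) / 2 * x = -x0 / 2 * x + 3 * x0 / 2 * x := by ring
  rw [h1, h2, Real.sin_pi_sub, Real.sin_two_mul, Real.exp_add]
  ring

theorem G0_pos {x : ℝ} (h0 : 0 ≤ x) (h1 : x < 1) : 0 < G0 x := by
  rw [G0_eq]
  have hp := Real.pi_pos
  have h2 : 0 < Real.sin (Real.pi / 3 * (1 - x)) := by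
    apply Real.sin_pos_of_pos_of_lt_pi
    · have : 0 < 1 - x := by linarith
      positivity
    · nlinarith
  positivity

theorem G0_nonneg {x : ℝ} (h : x ∈ Set.Icc (0 : ℝ) 1) : 0 ≤ G0 x := by
  rcases h.2.lt_or_eq with h1 | h1
  · exact (G0_pos h.1 h1).le
  · rw [G0_eq, h1]
    simp

theorem G0_le_G1 {x : ℝ} (h : x ∈ Set.Icc (0 : ℝ) 1) : G0 x ≤ G1 x := by
  rw [G1_eq]
  have hp := Real.pi_pos
  have h1 : 1 ≤ Real.exp (3 * x0 / 2 * x) := by
    apply Real.one_le_exp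
    have := x0_pos
    have := h.1
    positivity
  have h2 : 1 / 2 ≤ Real.cos (Real.pi / 3 * (1 - x)) := by
    rw [← Real.cos_pi_div_three]
    apply Real.cos_le_cos_of_nonneg_of_le_pi
    · have : 0 ≤ 1 - x := by linarith [h.2]
      positivity
    · linarith
    · nlinarith [h.1]
  have h3 : 1 ≤ Real.exp (3 * x0 / 2 * x) * (2 * Real.cos (Real.pi / 3 * (1 - x))) := by
    nlinarith
  exact le_mul_of_one_le_right (G0_nonneg h) h3

theorem int_mono {a b : ℝ} (ha : 0 ≤ a) (hab : a ≤ b) (hb : b ≤ 1) {h k : ℝ → ℝ}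
    (hc : Continuous h) (kc : Continuous k) (hk : ∀ y ∈ Set.Icc (0 : ℝ) 1, h y ≤ k y) :
    ∫ y in a..b, h y ≤ ∫ y in a..b, k y :=
  intervalIntegral.integral_mono_on hab (ii hc _ _) (ii kc _ _)
    (fun y hy => hk y ⟨ha.trans hy.1, hy.2.trans hb⟩)

theorem int_nonneg {a b : ℝ} (ha : 0 ≤ a) (hab : a ≤ b) (hb : b ≤ 1) {h : ℝ → ℝ}
    (hk : ∀ y ∈ Set.Icc (0 : ℝ) 1, 0 ≤ h y) : 0 ≤ ∫ y in a..b, h y :=
  intervalIntegral.integral_nonneg hab (fun y hy => hk y ⟨ha.trans hy.1, hy.2.trans hb⟩)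

theorem D_cont {h : ℝ → ℝ} (hc : Continuous h) : Continuous fun x => ∫ y in (0 : ℝ)..x, h y :=
  intervalIntegral.continuous_primitive (fun a b => ii hc a b) 0

theorem A_cont {h : ℝ → ℝ} (hc : Continuous h) : Continuous fun x => ∫ y in x..(1 : ℝ), h y := by
  have h1 : (fun x => ∫ y in x..(1 : ℝ), h y) = fun x => - ∫ y in (1 : ℝ)..x, h y := by
    funext x
    rw [intervalIntegral.integral_symm]
  rw [h1]
  exact (intervalIntegral.continuous_primitive (fun a b => ii hc a b) 1).neg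

theorem Ft_le (t : ℝ) (hG : ∀ y ∈ Set.Icc (0 : ℝ) 1, 0 ≤ Gt t y) {x : ℝ}
    (hx : x ∈ Set.Icc (0 : ℝ) 1) : ∫ y in (0 : ℝ)..x, Ft t y ≤ x := by
  have h1 : ∀ z, Gt t z - Ft t z = -t * ∫ y in (0 : ℝ)..z, Gt t y := by
    intro z
    have := Gt_int t z
    have := Ft_int t z
    linarith
  have h2 : ∀ z ∈ Set.Icc (0 : ℝ) 1, Ft t z ≤ 1 := by
    intro z hz
    rw [Ft_int, ← intervalIntegral.integral_sub (ii (Gt_cont t) _ _) (ii (Ft_cont t) _ _)]
    simp only [h1]
    rw [intervalIntegral.integral_const_mul]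
    have h3 : 0 ≤ ∫ w in (0 : ℝ)..z, ∫ y in (0 : ℝ)..w, Gt t y :=
      int_nonneg le_rfl hz.1 hz.2 (fun w hw => int_nonneg le_rfl hw.1 hw.2 hG)
    nlinarith [mul_nonneg (mul_self_nonneg t) h3]
  have h4 := int_mono le_rfl hx.1 hx.2 (Ft_cont t) continuous_const h2
  simpa using h4

theorem G0_ge {x : ℝ} (hx : x ∈ Set.Icc (0 : ℝ) 1) : 1 - 5 / 4 * x ≤ G0 x := by
  have h := Ft_le x0 (fun y hy => G0_nonneg hy) hx
  unfold G0
  rw [Gt_int]
  nlinarith [x0_pos, x0_lt, hx.1]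

theorem G1_le {x : ℝ} (hx : x ∈ Set.Icc (0 : ℝ) 1) : G1 x ≤ 1 + 5 / 2 * x := by
  have h := Ft_le (-2 * x0) (fun y hy => (G0_nonneg hy).trans (G0_le_G1 hy)) hx
  unfold G1
  rw [Gt_int]
  nlinarith [x0_pos, x0_lt, hx.1]

theorem DD_bound {x : ℝ} (hx : x ∈ Set.Icc (0 : ℝ) 1) :
    (∫ z in (0 : ℝ)..x, ∫ y in (0 : ℝ)..z, G1 y) ≤
      7 / 2 * ∫ z in (0 : ℝ)..x, ∫ y in (0 : ℝ)..z, G0 y := by
  have h1 : ∀ z ∈ Set.Icc (0 : ℝ) 1, 5 / 2 * z ^ 1 + (-55 / 16) * z ^ 2 ≤
      7 / 2 * (∫ y in (0 : ℝ)..z, G0 y) + (-1) * ∫ y in (0 : ℝ)..z, G1 y := by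
    intro z hz
    have h2 := int_mono le_rfl hz.1 hz.2
      (lin_cont (5 / 2) (-55 / 8) (continuous_pow 0) (continuous_pow 1))
      (lin_cont (7 / 2) (-1) G0_cont G1_cont)
      (fun y hy => by
        have := G0_ge hy
        have := G1_le hy
        simp only [pow_zero, pow_one]
        linarith)
    rw [int_lin _ _ G0_cont G1_cont, int_lin _ _ (continuous_pow 0) (continuous_pow 1),
      integral_pow, integral_pow] at h2
    norm_num at h2 ⊢
    linarith
  have h3 := int_mono le_rfl hx.1 hx.2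
    (lin_cont (5 / 2) (-55 / 16) (continuous_pow 1) (continuous_pow 2))
    (lin_cont (7 / 2) (-1) (D_cont G0_cont) (D_cont G1_cont)) h1
  rw [int_lin _ _ (D_cont G0_cont) (D_cont G1_cont),
    int_lin _ _ (continuous_pow 1) (continuous_pow 2), integral_pow, integral_pow] at h3
  have h4 : 0 ≤ x ^ 2 * (5 / 4 - 55 / 48 * x) :=
    mul_nonneg (sq_nonneg x) (by linarith [hx.2])
  norm_num at h3
  nlinarith

end Pool.Agent.Lib.MP_ff54ac_co
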