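import Mathlib
import Pool.Agent.Lib.MP_ff54ac_co.Eig

namespace Pool.Agent.Lib.MP_ff54ac_co

open Finset

theorem int_exp8 (x : ℝ) :
    ∫ y in (0 : ℝ)..x, Real.exp (8 * y) = (Real.exp (8 * x) - 1) / 8 := by
  have h : ∀ y : ℝ, HasDerivAt (fun y : ℝ => Real.exp (8 * y) / 8) (Real.exp (8 * y)) y := by
    intro y
    refine ((((hasDerivAt_id y).const_mul 8).exp).div_const 8).congr_deriv ?_
    simp
  rw [intervalIntegral.integral_eq_sub_of_hasDerivAt (fun y _ => h y) (ii (by fun_prop) _ _)]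
  simp
  ring

theorem int_abs_exp {h : ℝ → ℝ} (hc : Continuous h) {M : ℝ}
    (hb : ∀ y ∈ Set.Icc (0 : ℝ) 1, |h y| ≤ M * Real.exp (8 * y)) {x : ℝ}
    (hx : x ∈ Set.Icc (0 : ℝ) 1) :
    |∫ y in (0 : ℝ)..x, h y| ≤ M * ((Real.exp (8 * x) - 1) / 8) := by
  refine (intervalIntegral.abs_integral_le_integral_abs hx.1).trans ?_
  rw [← int_exp8, ← intervalIntegral.integral_const_mul]
  exact int_mono le_rfl hx.1 hx.2 hc.abs (by fun_prop) hb

theorem gron (a b : ℕ → ℝ → ℝ) (δ : ℕ → ℝ) (C : ℝ) (ha : ∀ n, Continuous (a n))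
    (hb : ∀ n, Continuous (b n)) (hδ : ∀ n, |δ n| ≤ C / 3 ^ n)
    (ra : ∀ n x, a (n + 1) x =
      δ (n + 1) + x0 * ((∫ y in (0 : ℝ)..x, b n y) - ∫ y in (0 : ℝ)..x, a n y))
    (rb : ∀ n x, b (n + 1) x = δ (n + 1) - x0 * ∫ y in (0 : ℝ)..x, a n y) :
    ∃ M : ℝ, ∀ n, ∀ x ∈ Set.Icc (0 : ℝ) 1, |b n x| ≤ M / 3 ^ n := by
  obtain ⟨Ma, hMa⟩ := (isCompact_Icc (a := (0 : ℝ)) (b := 1)).exists_bound_of_continuousOn
    (ha 0).continuousOn
  obtain ⟨Mb, hMb⟩ := (isCompact_Icc (a := (0 : ℝ)) (b := 1)).exists_bound_of_continuousOn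
    (hb 0).continuousOn
  set M := |C| + |Ma| + |Mb| with hM
  have hM0 : 0 ≤ M := by positivity
  have hCM : C ≤ M := by
    have := le_abs_self C
    have := abs_nonneg Ma
    have := abs_nonneg Mb
    linarith
  have key : ∀ n, ∀ x ∈ Set.Icc (0 : ℝ) 1, |a n x| ≤ M / 3 ^ n * Real.exp (8 * x) ∧
      |b n x| ≤ M / 3 ^ n * Real.exp (8 * x) := by
    intro n
    induction n with
    | zero =>
      intro x hx
      have h1 : 1 ≤ Real.exp (8 * x) := Real.one_le_exp (by linarith [hx.1])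
      have h2 := hMa x hx
      have h3 := hMb x hx
      rw [Real.norm_eq_abs] at h2 h3
      have h4 : M ≤ M / 3 ^ 0 * Real.exp (8 * x) := by
        rw [pow_zero, div_one]
        exact le_mul_of_one_le_right hM0 h1
      have := le_abs_self Ma
      have := le_abs_self Mb
      have := abs_nonneg Ma
      have := abs_nonneg Mb
      have := abs_nonneg C
      constructor <;> linarith
    | succ n ih =>
      intro x hx
      have h1 : 1 ≤ Real.exp (8 * x) := Real.one_le_exp (by linarith [hx.1])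
      have h2 := abs_le.1 (int_abs_exp (ha n) (fun y hy => (ih y hy).1) hx)
      have h3 := abs_le.1 (int_abs_exp (hb n) (fun y hy => (ih y hy).2) hx)
      have h4 := abs_le.1 (hδ (n + 1))
      have h5 : C / 3 ^ (n + 1) ≤ M / 3 ^ (n + 1) := by gcongr
      have h6 : M / 3 ^ n = 3 * (M / 3 ^ (n + 1)) := by
        rw [pow_succ]
        field_simp
      have h7 : 0 ≤ M / 3 ^ (n + 1) := by positivity
      rw [h6] at h2 h3
      rw [ra, rb]
      generalize M / 3 ^ (n + 1) = m at *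
      generalize (∫ y in (0 : ℝ)..x, a n y) = p at *
      generalize (∫ y in (0 : ℝ)..x, b n y) = q at *
      generalize Real.exp (8 * x) = t at *
      have h8 : 0 ≤ m * (t - 1) := mul_nonneg h7 (by linarith)
      have h9 := x0_pos
      have h10 := x0_lt
      have h11 : x0 * (m * (t - 1)) ≤ 5 / 4 * (m * (t - 1)) :=
        mul_le_mul_of_nonneg_right h10.le h8
      have p1 := mul_le_mul_of_nonneg_left h2.1 h9.le
      have p2 := mul_le_mul_of_nonneg_left h2.2 h9.le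
      have q1 := mul_le_mul_of_nonneg_left h3.1 h9.le
      have q2 := mul_le_mul_of_nonneg_left h3.2 h9.le
      constructor <;> rw [abs_le] <;> constructor <;> nlinarith
  refine ⟨M * Real.exp 8, fun n x hx => (key n x hx).2.trans ?_⟩
  have h1 : Real.exp (8 * x) ≤ Real.exp 8 := Real.exp_le_exp.2 (by linarith [hx.2])
  rw [mul_div_right_comm]
  gcongr

def Ex (γ : ℝ) (p : ℕ → ℝ → ℝ) (U W : ℝ → ℝ) : Prop :=
  Continuous U ∧ Continuous W ∧ ∃ (C : ℝ) (n0 : ℕ), ∀ n, n0 ≤ n → ∀ x ∈ Set.Icc (0 : ℝ) 1,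
    |x0 ^ n * p n x - U x - γ * (-1 / 2) ^ n * W x| ≤ C / 3 ^ n

theorem int3 (a b : ℝ) {h k l : ℝ → ℝ} (hc : Continuous h) (kc : Continuous k)
    (lc : Continuous l) (s t : ℝ) :
    ∫ y in s..t, (a * h y - k y - b * l y) =
      a * (∫ y in s..t, h y) - (∫ y in s..t, k y) - b * ∫ y in s..t, l y := by
  rw [intervalIntegral.integral_sub (((ii hc _ _).const_mul a).sub (ii kc _ _))
    ((ii lc _ _).const_mul b), intervalIntegral.integral_sub ((ii hc _ _).const_mul a) (ii kc _ _),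
    intervalIntegral.integral_const_mul, intervalIntegral.integral_const_mul]

noncomputable def rho : ℝ := vv / uu

theorem rho_pos : 0 < rho := div_pos vv_pos uu_pos

noncomputable def aa : ℕ → ℝ → ℝ
  | 0 => fun x => uu * G0 x
  | (j + 1) => fun x => x0 * ∫ y in (0 : ℝ)..x, aa j y

noncomputable def ab : ℕ → ℝ → ℝ
  | 0 => fun x => uu * G1 x
  | (j + 1) => fun x => x0 * ∫ y in (0 : ℝ)..x, ab j y

theorem aa_cont (j : ℕ) : Continuous (aa j) := by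
  induction j with
  | zero => exact continuous_const.mul G0_cont
  | succ j ih => exact continuous_const.mul (D_cont ih)

theorem ab_cont (j : ℕ) : Continuous (ab j) := by
  induction j with
  | zero => exact continuous_const.mul G1_cont
  | succ j ih => exact continuous_const.mul (D_cont ih)

theorem rho_uu : rho * uu = vv := div_mul_cancel₀ _ uu_pos.ne'

theorem cm (c : ℝ) {h : ℝ → ℝ} (hc : Continuous h) : Continuous fun y => c * h y := by fun_prop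

theorem ex_base : Ex rho (P ∅ True) (aa 0) (ab 0) := by
  obtain ⟨C, hC⟩ := pole al al_conv
  obtain ⟨M, hM⟩ := gron
    (fun n x => x0 ^ n * P ∅ False n x - uu * Ft x0 x - vv * (-1 / 2) ^ n * Ft (-2 * x0) x)
    (fun n x => x0 ^ n * P ∅ True n x - uu * Gt x0 x - vv * (-1 / 2) ^ n * Gt (-2 * x0) x)
    (fun n => x0 ^ n * al n - uu - vv * (-1 / 2) ^ n) C
    (fun n => ((cm _ (P_cont _ _ _)).sub (cm _ (Ft_cont _))).sub (cm _ (Ft_cont _)))
    (fun n => ((cm _ (P_cont _ _ _)).sub (cm _ (Gt_cont _))).sub (cm _ (Gt_cont _))) hC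
    (fun n x => by
      rw [int3 _ _ (P_cont _ _ _) (cm _ (Gt_cont _)) (Gt_cont _),
        int3 _ _ (P_cont _ _ _) (cm _ (Ft_cont _)) (Ft_cont _),
        intervalIntegral.integral_const_mul, intervalIntegral.integral_const_mul, f_rec',
        Ft_int x0 x, Ft_int (-2 * x0) x]
      ring)
    (fun n x => by
      rw [int3 _ _ (P_cont _ _ _) (cm _ (Ft_cont _)) (Ft_cont _),
        intervalIntegral.integral_const_mul, g_rec', Gt_int x0 x, Gt_int (-2 * x0) x]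
      ring)
  refine ⟨aa_cont 0, ab_cont 0, M, 0, fun n _ x hx => ?_⟩
  have h := hM n x hx
  have e1 : rho * (-1 / 2) ^ n * ab 0 x = vv * (-1 / 2) ^ n * Gt (-2 * x0) x := by
    show rho * (-1 / 2) ^ n * (uu * Gt (-2 * x0) x) = _
    rw [← rho_uu]
    ring
  rw [e1]
  exact h

noncomputable def T (c1 c2 : ℝ) (h1 h2 : ℝ → ℝ) (x : ℝ) : ℝ :=
  x0 * (c1 * (∫ y in (0 : ℝ)..x, h1 y) + c2 * ∫ y in x..(1 : ℝ), h2 y)

theorem T_cont (c1 c2 : ℝ) {h1 h2 : ℝ → ℝ} (a : Continuous h1) (b : Continuous h2) :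
    Continuous (T c1 c2 h1 h2) :=
  cm _ ((cm _ (D_cont a)).add (cm _ (A_cont b)))

theorem int_abs {h : ℝ → ℝ} {M s t : ℝ} (hs : 0 ≤ s) (hst : s ≤ t) (ht : t ≤ 1)
    (hb : ∀ y ∈ Set.Icc (0 : ℝ) 1, |h y| ≤ M) : |∫ y in s..t, h y| ≤ M := by
  have hM : 0 ≤ M := (abs_nonneg _).trans (hb 0 ⟨le_rfl, zero_le_one⟩)
  have h1 := intervalIntegral.norm_integral_le_of_norm_le_const (a := s) (b := t) (C := M)
    (f := h) (fun y hy => by
      rw [Set.uIoc_of_le hst] at hy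
      exact hb y ⟨hs.trans hy.1.le, hy.2.trans ht⟩)
  refine h1.trans (mul_le_of_le_one_right hM ?_)
  rw [abs_of_nonneg (by linarith)]
  linarith

theorem ex_step {γ c1 c2 : ℝ} {p p1 p2 : ℕ → ℝ → ℝ} {U1 W1 U2 W2 : ℝ → ℝ}
    (h1 : Ex γ p1 U1 W1) (h2 : Ex γ p2 U2 W2) (k1 : ∀ n, Continuous (p1 n))
    (k2 : ∀ n, Continuous (p2 n))
    (hp : ∀ n x, p (n + 1) x =
      c1 * (∫ y in (0 : ℝ)..x, p1 n y) + c2 * ∫ y in x..(1 : ℝ), p2 n y) :
    Ex (γ * (-2)) p (T c1 c2 U1 U2) (T c1 c2 W1 W2) := by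
  obtain ⟨u1, w1, C1, n1, h1⟩ := h1
  obtain ⟨u2, w2, C2, n2, h2⟩ := h2
  refine ⟨T_cont _ _ u1 u2, T_cont _ _ w1 w2, 3 * (x0 * (|c1| * C1 + |c2| * C2)),
    n1 + n2 + 1, fun n hn x hx => ?_⟩
  obtain ⟨m, rfl⟩ : ∃ m, n = m + 1 := ⟨n - 1, by omega⟩
  have e1 := int_abs le_rfl hx.1 hx.2 (h1 m (by omega))
  have e2 := int_abs hx.1 hx.2 le_rfl (h2 m (by omega))
  have e3 : x0 ^ (m + 1) * p (m + 1) x - T c1 c2 U1 U2 x -
      γ * (-2) * (-1 / 2) ^ (m + 1) * T c1 c2 W1 W2 x =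
      x0 * (c1 * (∫ y in (0 : ℝ)..x, (x0 ^ m * p1 m y - U1 y - γ * (-1 / 2) ^ m * W1 y)) +
        c2 * ∫ y in x..(1 : ℝ), (x0 ^ m * p2 m y - U2 y - γ * (-1 / 2) ^ m * W2 y)) := by
    rw [int3 _ _ (k1 m) u1 w1, int3 _ _ (k2 m) u2 w2, hp]
    unfold T
    ring
  rw [e3, abs_mul, abs_of_pos x0_pos]
  have e4 : 3 * (x0 * (|c1| * C1 + |c2| * C2)) / 3 ^ (m + 1) =
      x0 * (|c1| * (C1 / 3 ^ m) + |c2| * (C2 / 3 ^ m)) := by
    rw [pow_succ]
    field_simp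
  rw [e4]
  refine mul_le_mul_of_nonneg_left ((abs_add_le _ _).trans ?_) x0_pos.le
  rw [abs_mul, abs_mul]
  gcongr

theorem ex_zero (γ : ℝ) {p : ℕ → ℝ → ℝ} (hp : ∀ n x, p n x = 0) :
    Ex γ p (fun _ => 0) (fun _ => 0) :=
  ⟨continuous_const, continuous_const, 0, 0, fun n _ x _ => by simp [hp]⟩

def Inv (lam mu : ℝ) (p : ℕ → ℝ → ℝ) (U W : ℝ → ℝ) : Prop :=
  (∀ x ∈ Set.Icc (0 : ℝ) 1, 0 ≤ U x ∧ lam * U x ≤ W x ∧ W x ≤ mu * U x) ∧
  ((∀ n x, p n x = 0) ∨ ∀ x ∈ Set.Ioo (0 : ℝ) 1, W x < mu * U x) ∧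
  ((∀ n, p n 0 = 0) ∨ W 0 < mu * U 0)

theorem inv_zero (lam mu : ℝ) {p : ℕ → ℝ → ℝ} (hp : ∀ n x, p n x = 0) :
    Inv lam mu p (fun _ => 0) (fun _ => 0) :=
  ⟨fun x _ => by simp, Or.inl hp, Or.inl fun n => hp n 0⟩

theorem T_lin (c1 c2 a b : ℝ) {U1 W1 U2 W2 : ℝ → ℝ} (u1 : Continuous U1) (w1 : Continuous W1)
    (u2 : Continuous U2) (w2 : Continuous W2) (x : ℝ) :
    T c1 c2 (fun y => a * U1 y + b * W1 y) (fun y => a * U2 y + b * W2 y) x =
      a * T c1 c2 U1 U2 x + b * T c1 c2 W1 W2 x := by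
  unfold T
  rw [int_lin _ _ u1 w1, int_lin _ _ u2 w2]
  ring

theorem T_nonneg {c1 c2 : ℝ} (g1 : 0 ≤ c1) (g2 : 0 ≤ c2) {h1 h2 : ℝ → ℝ}
    (a : ∀ y ∈ Set.Icc (0 : ℝ) 1, 0 ≤ h1 y) (b : ∀ y ∈ Set.Icc (0 : ℝ) 1, 0 ≤ h2 y) {x : ℝ}
    (hx : x ∈ Set.Icc (0 : ℝ) 1) : 0 ≤ T c1 c2 h1 h2 x :=
  mul_nonneg x0_pos.le (add_nonneg (mul_nonneg g1 (int_nonneg le_rfl hx.1 hx.2 a))
    (mul_nonneg g2 (int_nonneg hx.1 hx.2 le_rfl b)))

theorem int_pos {s t : ℝ} (hs : 0 ≤ s) (hst : s < t) (ht : t ≤ 1) {h : ℝ → ℝ}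
    (hc : Continuous h) (hb : ∀ y ∈ Set.Ioo (0 : ℝ) 1, 0 < h y) : 0 < ∫ y in s..t, h y :=
  intervalIntegral.intervalIntegral_pos_of_pos_on (ii hc _ _)
    (fun y hy => hb y ⟨hs.trans_lt hy.1, hy.2.trans_le ht⟩) hst

theorem inv_step {lam mu c1 c2 : ℝ} {p p1 p2 : ℕ → ℝ → ℝ} {U1 W1 U2 W2 : ℝ → ℝ}
    (u1 : Continuous U1) (w1 : Continuous W1) (u2 : Continuous U2) (w2 : Continuous W2)
    (h1 : Inv lam mu p1 U1 W1) (h2 : Inv lam mu p2 U2 W2) (g1 : 0 ≤ c1) (g2 : 0 ≤ c2)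
    (hp0 : ∀ x, p 0 x = 0)
    (hp : ∀ n x, p (n + 1) x =
      c1 * (∫ y in (0 : ℝ)..x, p1 n y) + c2 * ∫ y in x..(1 : ℝ), p2 n y) :
    Inv lam mu p (T c1 c2 U1 U2) (T c1 c2 W1 W2) := by
  have y1 : ∀ y ∈ Set.Icc (0 : ℝ) 1, 0 ≤ mu * U1 y + (-1) * W1 y :=
    fun y hy => by linarith [(h1.1 y hy).2.2]
  have y2 : ∀ y ∈ Set.Icc (0 : ℝ) 1, 0 ≤ mu * U2 y + (-1) * W2 y :=
    fun y hy => by linarith [(h2.1 y hy).2.2]
  have posA : 0 < c2 → (∀ x ∈ Set.Ioo (0 : ℝ) 1, W2 x < mu * U2 x) → ∀ x, 0 ≤ x → x < 1 →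
      T c1 c2 W1 W2 x < mu * T c1 c2 U1 U2 x := by
    intro c h x hx0 hx1
    have e := T_lin c1 c2 mu (-1) u1 w1 u2 w2 x
    have a := mul_nonneg g1 (int_nonneg le_rfl hx0 hx1.le y1)
    have b := mul_pos c (int_pos hx0 hx1 le_rfl (lin_cont mu (-1) u2 w2)
      (fun y hy => by linarith [h y hy]))
    have : 0 < T c1 c2 (fun y => mu * U1 y + (-1) * W1 y) (fun y => mu * U2 y + (-1) * W2 y) x :=
      mul_pos x0_pos (add_pos_of_nonneg_of_pos a b)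
    linarith
  have posD : 0 < c1 → (∀ x ∈ Set.Ioo (0 : ℝ) 1, W1 x < mu * U1 x) → ∀ x, 0 < x → x ≤ 1 →
      T c1 c2 W1 W2 x < mu * T c1 c2 U1 U2 x := by
    intro c h x hx0 hx1
    have e := T_lin c1 c2 mu (-1) u1 w1 u2 w2 x
    have a := mul_nonneg g2 (int_nonneg hx0.le hx1 le_rfl y2)
    have b := mul_pos c (int_pos le_rfl hx0 hx1 (lin_cont mu (-1) u1 w1)
      (fun y hy => by linarith [h y hy]))
    have : 0 < T c1 c2 (fun y => mu * U1 y + (-1) * W1 y) (fun y => mu * U2 y + (-1) * W2 y) x :=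
      mul_pos x0_pos (add_pos_of_pos_of_nonneg b a)
    linarith
  have z1 : (∀ n x, c1 * (∫ y in (0 : ℝ)..x, p1 n y) = 0) ∨
      (0 < c1 ∧ ∀ x ∈ Set.Ioo (0 : ℝ) 1, W1 x < mu * U1 x) := by
    rcases g1.eq_or_lt with c | c
    · left
      intro n x
      rw [← c, zero_mul]
    · rcases h1.2.1 with h | h
      · left
        intro n x
        simp [h]
      · exact Or.inr ⟨c, h⟩
  have z2 : (∀ n x, c2 * (∫ y in x..(1 : ℝ), p2 n y) = 0) ∨
      (0 < c2 ∧ ∀ x ∈ Set.Ioo (0 : ℝ) 1, W2 x < mu * U2 x) := by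
    rcases g2.eq_or_lt with c | c
    · left
      intro n x
      rw [← c, zero_mul]
    · rcases h2.2.1 with h | h
      · left
        intro n x
        simp [h]
      · exact Or.inr ⟨c, h⟩
  refine ⟨fun x hx => ⟨T_nonneg g1 g2 (fun y hy => (h1.1 y hy).1) (fun y hy => (h2.1 y hy).1) hx,
    ?_, ?_⟩, ?_, ?_⟩
  · have e := T_lin c1 c2 (-lam) 1 u1 w1 u2 w2 x
    have := T_nonneg g1 g2 (h1 := fun y => (-lam) * U1 y + 1 * W1 y)
      (h2 := fun y => (-lam) * U2 y + 1 * W2 y) (fun y hy => by linarith [(h1.1 y hy).2.1])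
      (fun y hy => by linarith [(h2.1 y hy).2.1]) hx
    linarith
  · have e := T_lin c1 c2 mu (-1) u1 w1 u2 w2 x
    have := T_nonneg g1 g2 y1 y2 hx
    linarith
  · rcases z2 with z2 | z2
    · rcases z1 with z1 | z1
      · left
        intro n x
        cases n with
        | zero => exact hp0 x
        | succ n => rw [hp, z1, z2, add_zero]
      · exact Or.inr fun x hx => posD z1.1 z1.2 x hx.1 hx.2.le
    · exact Or.inr fun x hx => posA z2.1 z2.2 x hx.1.le hx.2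
  · rcases z2 with z2 | z2
    · left
      intro n
      cases n with
      | zero => exact hp0 0
      | succ n => rw [hp, z2]; simp
    · exact Or.inr (posA z2.1 z2.2 0 le_rfl zero_lt_one)

end Pool.Agent.Lib.MP_ff54ac_co
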