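import Mathlib
import Pool.Agent.Lib.MP_ff54ac_co.Asym

namespace Pool.Agent.Lib.MP_ff54ac_co

def CM (a b : ℝ → ℝ) : Prop := ∀ y z, 0 < y → y < z → z < 1 → b y * a z < b z * a y

theorem cross {a b : ℝ → ℝ} (ha : Continuous a) (hb : Continuous b) (h : CM a b) {p q r s : ℝ}
    (hp : 0 ≤ p) (hpq : p < q) (hqr : q ≤ r) (hrs : r < s) (hs : s ≤ 1) :
    (∫ y in p..q, b y) * (∫ y in r..s, a y) < (∫ y in r..s, b y) * ∫ y in p..q, a y := by
  have h1 : ∀ z ∈ Set.Ioo r s,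
      0 < (∫ y in p..q, a y) * b z + (-∫ y in p..q, b y) * a z := by
    intro z hz
    have h2 := intervalIntegral.intervalIntegral_pos_of_pos_on
      (ii (lin_cont (b z) (-a z) ha hb) p q) (fun y hy => by
        have := h y z (hp.trans_lt hy.1) (hy.2.trans (hqr.trans_lt hz.1)) (hz.2.trans_le hs)
        linarith) hpq
    rw [int_lin _ _ ha hb] at h2
    linarith
  have h3 := intervalIntegral.intervalIntegral_pos_of_pos_on
    (ii (lin_cont (∫ y in p..q, a y) (-∫ y in p..q, b y) hb ha) r s) h1 hrs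
  rw [int_lin _ _ hb ha] at h3
  linarith

theorem split {h : ℝ → ℝ} (hc : Continuous h) (p q r : ℝ) :
    ∫ y in p..r, h y = (∫ y in p..q, h y) + ∫ y in q..r, h y :=
  (intervalIntegral.integral_add_adjacent_intervals (ii hc _ _) (ii hc _ _)).symm

theorem cm_zero : CM (aa 0) (ab 0) := by
  intro y z hy hyz hz
  show uu * G1 y * (uu * G0 z) < uu * G1 z * (uu * G0 y)
  rw [G1_eq y, G1_eq z]
  have hp := Real.pi_pos
  have h1 := G0_pos hy.le (hyz.trans hz)
  have h2 := G0_pos (hy.trans hyz).le hz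
  have h3 : Real.exp (3 * x0 / 2 * y) < Real.exp (3 * x0 / 2 * z) := by
    apply Real.exp_lt_exp.2
    have := x0_pos
    nlinarith
  have h4 : Real.cos (Real.pi / 3 * (1 - y)) ≤ Real.cos (Real.pi / 3 * (1 - z)) := by
    apply Real.cos_le_cos_of_nonneg_of_le_pi
    · have : 0 ≤ 1 - z := by linarith
      positivity
    · nlinarith
    · nlinarith
  have h5 : 0 < Real.cos (Real.pi / 3 * (1 - y)) := by
    apply Real.cos_pos_of_mem_Ioo
    constructor <;> nlinarith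
  have h6 : Real.exp (3 * x0 / 2 * y) * (2 * Real.cos (Real.pi / 3 * (1 - y))) <
      Real.exp (3 * x0 / 2 * z) * (2 * Real.cos (Real.pi / 3 * (1 - z))) :=
    mul_lt_mul h3 (by linarith) (by linarith) (Real.exp_pos _).le
  have h7 := mul_lt_mul_of_pos_left h6 (mul_pos (mul_pos uu_pos uu_pos) (mul_pos h1 h2))
  linarith

theorem cm_succ {j : ℕ} (h : CM (aa j) (ab j)) {y z : ℝ} (hy : 0 < y) (hyz : y < z)
    (hz : z ≤ 1) : ab (j + 1) y * aa (j + 1) z < ab (j + 1) z * aa (j + 1) y := by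
  have h1 := cross (aa_cont j) (ab_cont j) h le_rfl hy le_rfl hyz hz
  have h2 := mul_lt_mul_of_pos_left h1 (mul_pos x0_pos x0_pos)
  show (x0 * ∫ t in (0 : ℝ)..y, ab j t) * (x0 * ∫ t in (0 : ℝ)..z, aa j t) <
    (x0 * ∫ t in (0 : ℝ)..z, ab j t) * (x0 * ∫ t in (0 : ℝ)..y, aa j t)
  rw [split (aa_cont j) 0 y z, split (ab_cont j) 0 y z]
  linarith

theorem cm_all (j : ℕ) : CM (aa j) (ab j) := by
  induction j with
  | zero => exact cm_zero
  | succ j ih => exact fun y z hy hyz hz => cm_succ ih hy hyz hz.le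

theorem aa_pos (j : ℕ) : ∀ y ∈ Set.Ioo (0 : ℝ) 1, 0 < aa j y := by
  induction j with
  | zero => exact fun y hy => mul_pos uu_pos (G0_pos hy.1.le hy.2)
  | succ j ih => exact fun y hy => mul_pos x0_pos (int_pos le_rfl hy.1 hy.2.le (aa_cont j) ih)

theorem aa_one (j : ℕ) : 0 < aa (j + 1) 1 :=
  mul_pos x0_pos (int_pos le_rfl zero_lt_one le_rfl (aa_cont j) (aa_pos j))

theorem aa_nonneg (j : ℕ) : ∀ y ∈ Set.Icc (0 : ℝ) 1, 0 ≤ aa j y := by
  induction j with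
  | zero => exact fun y hy => mul_nonneg uu_pos.le (G0_nonneg hy)
  | succ j ih => exact fun y hy => mul_nonneg x0_pos.le (int_nonneg le_rfl hy.1 hy.2 ih)

theorem aa_le_ab (j : ℕ) : ∀ y ∈ Set.Icc (0 : ℝ) 1, aa j y ≤ ab j y := by
  induction j with
  | zero => exact fun y hy => mul_le_mul_of_nonneg_left (G0_le_G1 hy) uu_pos.le
  | succ j ih =>
    exact fun y hy => mul_le_mul_of_nonneg_left
      (int_mono le_rfl hy.1 hy.2 (aa_cont j) (ab_cont j) ih) x0_pos.le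

noncomputable def R (j : ℕ) : ℝ := ab j 1 / aa j 1

theorem R_mul (j : ℕ) : R (j + 1) * aa (j + 1) 1 = ab (j + 1) 1 :=
  div_mul_cancel₀ _ (aa_one j).ne'

theorem ab_lt (j : ℕ) : ∀ y ∈ Set.Ioo (0 : ℝ) 1, ab (j + 1) y < R (j + 1) * aa (j + 1) y := by
  intro y hy
  have h1 := cm_succ (cm_all j) hy.1 hy.2 le_rfl
  rw [← R_mul] at h1
  apply lt_of_mul_lt_mul_right _ (aa_one j).le
  linarith

theorem A_upper (j : ℕ) {x : ℝ} (h0 : 0 ≤ x) (h1 : x < 1) :
    (∫ y in x..(1 : ℝ), ab (j + 1) y) < R (j + 1) * ∫ y in x..(1 : ℝ), aa (j + 1) y := by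
  have h := int_pos h0 h1 le_rfl (lin_cont (R (j + 1)) (-1) (aa_cont (j + 1)) (ab_cont (j + 1)))
    (fun y hy => by linarith [ab_lt j y hy])
  rw [int_lin _ _ (aa_cont _) (ab_cont _)] at h
  linarith

theorem R_succ (j : ℕ) :
    R (j + 1) * (∫ y in (0 : ℝ)..1, aa j y) = ∫ y in (0 : ℝ)..1, ab j y := by
  have h := R_mul j
  apply mul_left_cancel₀ x0_pos.ne'
  have h2 : R (j + 1) * (x0 * ∫ y in (0 : ℝ)..1, aa j y) = x0 * ∫ y in (0 : ℝ)..1, ab j y := h
  linarith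

theorem int_aa_pos (j : ℕ) : 0 < ∫ y in (0 : ℝ)..1, aa j y :=
  int_pos le_rfl zero_lt_one le_rfl (aa_cont j) (aa_pos j)

theorem A_lower (j : ℕ) {x : ℝ} (hx : x ∈ Set.Icc (0 : ℝ) 1) :
    R (j + 1) * (∫ y in x..(1 : ℝ), aa j y) ≤ ∫ y in x..(1 : ℝ), ab j y := by
  rcases hx.1.eq_or_lt with h0 | h0
  · rw [← h0]
    exact (R_succ j).le
  rcases hx.2.eq_or_lt with h1 | h1
  · rw [h1]
    simp
  have h2 := cross (aa_cont j) (ab_cont j) (cm_all j) le_rfl h0 le_rfl h1 le_rfl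
  have h3 := R_succ j
  have h4 := int_aa_pos j
  apply le_of_mul_le_mul_right _ h4
  rw [mul_right_comm, h3, split (aa_cont j) 0 x 1, split (ab_cont j) 0 x 1]
  linarith

theorem R_step (j : ℕ) : R (j + 2) ≤ R (j + 1) := by
  have h1 := A_upper j le_rfl zero_lt_one
  rw [← R_succ (j + 1)] at h1
  exact (lt_of_mul_lt_mul_right h1 (int_aa_pos _).le).le

theorem R_anti {i j : ℕ} (h : i ≤ j) : R (j + 1) ≤ R (i + 1) :=
  antitone_nat_of_succ_le (f := fun j => R (j + 1)) R_step h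

theorem one_le_R (j : ℕ) : 1 ≤ R (j + 1) :=
  (one_le_div (aa_one j)).2 (aa_le_ab _ 1 ⟨zero_le_one, le_rfl⟩)

theorem R_two : R 2 ≤ 7 / 2 := by
  unfold R
  rw [div_le_iff₀ (aa_one 1)]
  have h := DD_bound (x := 1) ⟨zero_le_one, le_rfl⟩
  have e1 : aa 2 1 = x0 * (x0 * (uu * ∫ z in (0 : ℝ)..1, ∫ y in (0 : ℝ)..z, G0 y)) := by
    simp only [aa, intervalIntegral.integral_const_mul]
  have e2 : ab 2 1 = x0 * (x0 * (uu * ∫ z in (0 : ℝ)..1, ∫ y in (0 : ℝ)..z, G1 y)) := by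
    simp only [ab, intervalIntegral.integral_const_mul]
  rw [e1, e2]
  have := mul_le_mul_of_nonneg_left h (mul_pos x0_pos (mul_pos x0_pos uu_pos)).le
  linarith

theorem T_D (h : ℝ → ℝ) : T 1 0 h h = fun x => x0 * ∫ y in (0 : ℝ)..x, h y := by
  funext x
  simp [T]

theorem T_A (h : ℝ → ℝ) (x : ℝ) : T 0 1 h h x = x0 * ∫ y in x..(1 : ℝ), h y := by
  simp [T]

theorem inv_base (j : ℕ) (p : ℕ → ℝ → ℝ) : Inv (R (j + 2)) (R (j + 1)) p
    (T 0 1 (aa (j + 1)) (aa (j + 1))) (T 0 1 (ab (j + 1)) (ab (j + 1))) := by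
  have up : ∀ x, 0 ≤ x → x < 1 → T 0 1 (ab (j + 1)) (ab (j + 1)) x <
      R (j + 1) * T 0 1 (aa (j + 1)) (aa (j + 1)) x := by
    intro x h0 h1
    rw [T_A, T_A]
    have := mul_lt_mul_of_pos_left (A_upper j h0 h1) x0_pos
    linarith
  refine ⟨fun x hx => ⟨?_, ?_, ?_⟩, Or.inr fun x hx => up x hx.1.le hx.2,
    Or.inr (up 0 le_rfl zero_lt_one)⟩
  · exact T_nonneg le_rfl zero_le_one (aa_nonneg _) (aa_nonneg _) hx
  · rw [T_A, T_A]
    have := mul_le_mul_of_nonneg_left (A_lower (j + 1) hx) x0_pos.le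
    linarith
  · rcases hx.2.eq_or_lt with h1 | h1
    · rw [h1, T_A, T_A]
      simp
    · exact (up x hx.1 h1).le

theorem P_zero_ne {S : Set ℕ} {i : ℕ} (h : i ∈ S) (s : Prop) (x : ℝ) : P S s 0 x = 0 := by
  rw [P_zero, ind_false]
  rintro rfl
  exact h

theorem zero_mem {S : Set ℕ} (h : 0 ∈ S) (n : ℕ) (x : ℝ) : P S False n x = 0 := by
  cases n with
  | zero => exact P_zero_ne h _ _
  | succ n => rw [P_succ, ind_false (by simp [h]), ind_false (by simp [h])]; simp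

theorem phase_run (l : ℕ) : ∀ S : Set ℕ, (∀ i, i ∈ S ↔ i < l) →
    Ex (rho * (-2) ^ l) (P S True) (aa l) (ab l) := by
  induction l with
  | zero =>
    intro S hS
    have : S = ∅ := by
      ext i
      simp [hS]
    rw [this, pow_zero, mul_one]
    exact ex_base
  | succ l ih =>
    intro S hS
    have h0 : 0 ∈ S := (hS 0).2 (Nat.succ_pos l)
    have h1 := ih (sh S) (fun i => (hS (i + 1)).trans Nat.succ_lt_succ_iff)
    have h2 := ex_step (p := P S True) (c1 := 1) (c2 := 0) h1 h1 (P_cont _ _) (P_cont _ _)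
      (fun n x => by rw [P_succ, ind_true (by simp [h0]), ind_false (by simp [h0])]; simp)
    rw [T_D, T_D, mul_assoc, ← pow_succ] at h2
    exact h2

theorem phase_zero (l : ℕ) (S : Set ℕ) (h0 : 0 ∉ S) (hS : ∀ i, i + 1 ∈ S ↔ i < l + 1) :
    Ex (rho * (-2) ^ (l + 2)) (P S False) (aa (l + 2)) (ab (l + 2)) ∧
      (∀ n x, P S True n x = 0) ∧ ∀ n, P S False n 0 = 0 := by
  have h1 := phase_run (l + 1) (sh S) hS
  have hm : 0 ∈ sh S := (hS 0).2 (Nat.succ_pos l)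
  have hz := zero_mem hm
  refine ⟨?_, ?_, ?_⟩
  · have h2 := ex_step (p := P S False) (c1 := 1) (c2 := 0) h1 h1 (P_cont _ _) (P_cont _ _)
      (fun n x => by rw [P_succ, ind_true (by simp [h0])]; simp [hz])
    rw [T_D, T_D, mul_assoc, ← pow_succ] at h2
    exact h2
  · intro n x
    cases n with
    | zero => exact P_zero_ne (i := 0 + 1) hm _ _
    | succ n => rw [P_succ, ind_false (by simp [h0])]; simp [hz]
  · intro n
    cases n with
    | zero => exact P_zero_ne (i := 0 + 1) hm _ _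
    | succ n => rw [P_succ]; simp [hz]

theorem phase_main (l k : ℕ) : ∀ S : Set ℕ, k + 1 ∉ S → (∀ i, i + (k + 2) ∈ S ↔ i < l + 1) →
    ∀ s : Prop, ∃ U W : ℝ → ℝ, Ex (rho * (-2) ^ (l + k + 3)) (P S s) U W ∧
      Inv (R (l + 3)) (R (l + 2)) (P S s) U W := by
  induction k with
  | zero =>
    intro S h1 hS s
    obtain ⟨e1, e2, -⟩ := phase_zero l (sh S) h1 (fun i => hS i)
    have hm : 0 + (0 + 2) ∈ S := (hS 0).2 (Nat.succ_pos l)
    by_cases h0 : 0 ∈ S
    · have hz : ∀ n x, P S s n x = 0 := by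
        intro n x
        cases n with
        | zero => exact P_zero_ne hm _ _
        | succ n => rw [P_succ, ind_false (p := 0 ∉ S) (by simp [h0])]; simp [e2]
      exact ⟨_, _, ex_zero _ hz, inv_zero _ _ hz⟩
    · have h2 := ex_step (p := P S s) (c1 := 0) (c2 := 1) e1 e1 (P_cont _ _) (P_cont _ _)
        (fun n x => by rw [P_succ, ind_true h0]; simp [e2])
      rw [mul_assoc, ← pow_succ] at h2
      exact ⟨_, _, h2, inv_base (l + 1) _⟩
  | succ k ih =>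
    intro S h1 hS s
    have hm : 0 + (k + 1 + 2) ∈ S := (hS 0).2 (Nat.succ_pos l)
    obtain ⟨U1, W1, e1, i1⟩ := ih (sh S) h1 (fun i => hS i) True
    obtain ⟨U2, W2, e2, i2⟩ := ih (sh S) h1 (fun i => hS i) False
    have h2 := ex_step e1 e2 (P_cont _ _) (P_cont _ _) (P_succ S s)
    rw [mul_assoc, ← pow_succ] at h2
    exact ⟨_, _, h2, inv_step e1.1 e1.2.1 e2.1 e2.2.1 i1 i2 (ind_nonneg _) (ind_nonneg _)
      (P_zero_ne hm s) (P_succ S s)⟩

end Pool.Agent.Lib.MP_ff54ac_co
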