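import Mathlib
import Pool.Agent.Lib.MP_ff54ac_co.Mono

namespace Pool.Agent.Lib.MP_ff54ac_co

open Filter Topology

theorem tend_of_bound {d : ℕ → ℝ} {u v C : ℝ} {n0 : ℕ}
    (h : ∀ n, n0 ≤ n → |d n - u - v * (-1 / 2) ^ n| ≤ C / 3 ^ n) :
    Tendsto (fun n : ℕ => (-2) ^ n * (d n - u)) atTop (𝓝 v) := by
  rw [tendsto_iff_norm_sub_tendsto_zero]
  have h1 : Tendsto (fun n : ℕ => C * (2 / 3 : ℝ) ^ n) atTop (𝓝 (C * 0)) :=
    (tendsto_pow_atTop_nhds_zero_of_lt_one (by norm_num) (by norm_num)).const_mul C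
  rw [mul_zero] at h1
  refine squeeze_zero' (Eventually.of_forall fun _ => norm_nonneg _) ?_ h1
  filter_upwards [eventually_ge_atTop n0] with n hn
  have e1 : ((-2 : ℝ)) ^ n * (-1 / 2) ^ n = 1 := by
    rw [← mul_pow]
    norm_num
  have e2 : (-2 : ℝ) ^ n * (d n - u) - v = (-2) ^ n * (d n - u - v * (-1 / 2) ^ n) := by
    linear_combination v * e1
  rw [e2, Real.norm_eq_abs, abs_mul, abs_pow, abs_neg, abs_two]
  have e3 : C * (2 / 3 : ℝ) ^ n = 2 ^ n * (C / 3 ^ n) := by
    rw [div_pow]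
    ring
  rw [e3]
  exact mul_le_mul_of_nonneg_left (h n hn) (by positivity)

theorem ratio {d c : ℕ → ℝ} {u v u' v' : ℝ} (hu' : 0 < u')
    (h1 : Tendsto (fun n : ℕ => (-2) ^ n * (d n - u)) atTop (𝓝 v))
    (h2 : Tendsto (fun n : ℕ => (-2) ^ n * (c n - u')) atTop (𝓝 v')) :
    Tendsto (fun n : ℕ => (-2) ^ n * (d n / c n - u / u')) atTop
      (𝓝 ((v * u' - u * v') / (u' * u'))) := by
  have h3 : Tendsto c atTop (𝓝 u') := by
    have h4 : Tendsto (fun n : ℕ => (-1 / 2 : ℝ) ^ n) atTop (𝓝 0) :=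
      tendsto_pow_atTop_nhds_zero_of_abs_lt_one (by rw [abs_lt]; constructor <;> norm_num)
    have h5 := (h4.mul h2).add_const u'
    rw [zero_mul, zero_add] at h5
    refine h5.congr fun n => ?_
    have e1 : ((-2 : ℝ)) ^ n * (-1 / 2) ^ n = 1 := by
      rw [← mul_pow]
      norm_num
    linear_combination (c n - u') * e1
  have h6 := ((h1.mul_const u').sub (h2.const_mul u)).div (h3.mul_const u')
    (mul_pos hu' hu').ne'
  refine h6.congr' ?_
  filter_upwards [h3.eventually (lt_mem_nhds hu')] with n hn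
  have := hn.ne'
  have := hu'.ne'
  simp only [Pi.div_apply]
  field_simp
  ring

theorem summary (I : Finset ℕ) (hI : ∀ᶠ n in atTop, 0 < dd I n) :
    ∃ (u w : ℝ) (L : ℕ), 0 < u ∧
      Tendsto (fun n : ℕ => (-2) ^ n * (x0 ^ n * ((dd I n : ℝ) / n.factorial) - u)) atTop
        (𝓝 (rho * (-2) ^ L * w)) ∧
      ((I = ∅ ∧ L = 0 ∧ w = u) ∨ ∃ k l : ℕ, k + 1 ∉ I ∧ (∀ i, i + (k + 2) ∈ I ↔ i < l + 1) ∧
        I.sup id = k + l + 2 ∧ L = k + l + 3 ∧ R (l + 3) * u ≤ w ∧ w < R (l + 2) * u) := by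
  classical
  have hne : ¬ ∀ n, P (I : Set ℕ) False n 0 = 0 := by
    intro h
    obtain ⟨n, hn⟩ := hI.exists
    have h1 := h n
    rw [P_dd] at h1
    have h2 : (0 : ℝ) < (dd I n : ℝ) / n.factorial := by
      have := n.factorial_pos
      positivity
    exact h2.ne' h1
  rcases I.eq_empty_or_nonempty with h | h
  · subst h
    obtain ⟨C, hC⟩ := pole al al_conv
    refine ⟨uu, uu, 0, uu_pos, ?_, Or.inl ⟨rfl, rfl, rfl⟩⟩
    rw [pow_zero, mul_one, rho_uu]
    refine tend_of_bound (C := C) (n0 := 0) fun n _ => ?_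
    have h1 := hC n
    have h2 : al n = (dd ∅ n : ℝ) / n.factorial := by
      rw [← P_dd, Finset.coe_empty]
      rfl
    rwa [h2] at h1
  · obtain ⟨m, hm, hsup⟩ := Finset.exists_mem_eq_sup I h id
    have hle : ∀ i ∈ I, i ≤ m := fun i hi => by
      have := Finset.le_sup (f := id) hi
      rwa [hsup] at this
    have h0 : 0 ∉ I := fun h0 => hne fun n => zero_mem (Finset.mem_coe.2 h0) n 0
    have ht1 : Nat.findGreatest (fun i => i ∉ I) m ∉ I :=
      Nat.findGreatest_spec (P := fun i => i ∉ I) (Nat.zero_le m) h0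
    have ht2 : Nat.findGreatest (fun i => i ∉ I) m ≤ m := Nat.findGreatest_le m
    have ht3 : ∀ i, Nat.findGreatest (fun i => i ∉ I) m < i → i ≤ m → i ∈ I := fun i a b =>
      not_not.1 (Nat.findGreatest_is_greatest (P := fun i => i ∉ I) a b)
    generalize Nat.findGreatest (fun i => i ∉ I) m = t at ht1 ht2 ht3
    have ht4 : t ≠ m := fun e => ht1 (e ▸ hm)
    obtain ⟨l, rfl⟩ : ∃ l, m = t + l + 1 := ⟨m - t - 1, by omega⟩
    have hrun : ∀ i, i + (t + 1) ∈ I ↔ i < l + 1 := fun i =>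
      ⟨fun a => by have := hle _ a; omega, fun a => ht3 _ (by omega) (by omega)⟩
    cases t with
    | zero => exact absurd (phase_zero l (I : Set ℕ) ht1 hrun).2.2 hne
    | succ k =>
      obtain ⟨U, W, ⟨-, -, C, n0, e⟩, i1, -, i3⟩ := phase_main l k (I : Set ℕ) ht1 hrun False
      have i4 := i3.resolve_left hne
      obtain ⟨i5, i6, -⟩ := i1 0 ⟨le_rfl, zero_le_one⟩
      have hU : 0 < U 0 := by
        rcases i5.eq_or_lt with a | a
        · rw [← a, mul_zero] at i4 i6
          exact absurd i4 (not_lt.2 i6)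
        · exact a
      refine ⟨U 0, W 0, l + k + 3, hU, ?_, Or.inr ⟨k, l, ht1, hrun, ?_, by omega, i6, i4⟩⟩
      · refine tend_of_bound (C := C) (n0 := n0) fun n hn => ?_
        have h1 := e n hn 0 ⟨le_rfl, zero_le_one⟩
        rw [P_dd] at h1
        rw [mul_right_comm (rho * (-2) ^ (l + k + 3))]
        exact h1
      · rw [hsup]
        show k + 1 + l + 1 = _
        omega

theorem sign_lt {u w u' w' : ℝ} {L L' : ℕ} (hu : 0 < u) (hu' : 0 < u') (h1 : u ≤ w)
    (h2 : u' ≤ w') (h3 : w' ≤ 7 / 2 * u') (hL : L' < L) :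
    0 < (-1) ^ L * ((-2) ^ L * w * u' - u * ((-2) ^ L' * w')) := by
  obtain ⟨d, rfl⟩ : ∃ d, L = L' + (d + 1) := ⟨L - L' - 1, by omega⟩
  have e1 : ∀ n : ℕ, (-2 : ℝ) ^ n = (-1) ^ n * 2 ^ n := fun n => by rw [← mul_pow]; norm_num
  have e2 : ∀ n : ℕ, (-1 : ℝ) ^ n * (-1) ^ n = 1 := fun n => by rw [← mul_pow]; norm_num
  have e3 : (-1 : ℝ) ^ (L' + (d + 1)) *
      ((-2) ^ (L' + (d + 1)) * w * u' - u * ((-2) ^ L' * w')) =
      2 ^ L' * (2 ^ (d + 1) * (w * u') - (-1) ^ (d + 1) * (u * w')) := by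
    rw [e1, e1, pow_add, pow_add]
    linear_combination
      (2 ^ L' * (-1) ^ (d + 1) * (-1) ^ (d + 1) * 2 ^ (d + 1) * w * u' -
        2 ^ L' * (-1) ^ (d + 1) * (u * w')) * e2 L' +
      (2 ^ L' * 2 ^ (d + 1) * w * u') * e2 (d + 1)
  rw [e3]
  refine mul_pos (by positivity) ?_
  have p1 : u * u' ≤ w * u' := mul_le_mul_of_nonneg_right h1 hu'.le
  have p2 : u * w' ≤ u * (7 / 2 * u') := mul_le_mul_of_nonneg_left h3 hu.le
  have p3 : 0 < u * u' := mul_pos hu hu'
  have p4 : 0 < u * w' := mul_pos hu (hu'.trans_le h2)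
  cases d with
  | zero =>
    norm_num
    linarith
  | succ d =>
    have q1 : (4 : ℝ) ≤ 2 ^ (d + 1 + 1) := by
      have : (1 : ℝ) ≤ 2 ^ d := one_le_pow₀ (by norm_num)
      rw [pow_succ, pow_succ]
      linarith
    have q2 : (-1 : ℝ) ^ (d + 1 + 1) ≤ 1 := by
      rcases neg_one_pow_eq_or ℝ (d + 1 + 1) with a | a
      · exact a.le
      · rw [a]
        norm_num
    have q3 := mul_le_mul_of_nonneg_right q1 (p3.le.trans p1)
    have q4 := mul_le_mul_of_nonneg_right q2 p4.le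
    linarith

theorem main (I J : Finset ℕ) (hI : ∀ᶠ n in atTop, 0 < dd I n)
    (hJ : ∀ᶠ n in atTop, 0 < dd J n) :
    ∃ L C : ℝ, 0 < L ∧
      Tendsto (fun n : ℕ => (-2) ^ n * ((dd I n : ℝ) / dd J n - L)) atTop (𝓝 C) ∧
      ((J.sup id < I.sup id ∨ (J.sup id = I.sup id ∧
          ∃ k, k ≤ I.sup id ∧ k ∉ I ∧ ∀ i, k ≤ i → i ≤ I.sup id → i ∈ J)) →
        0 < (-1) ^ (I.sup id + 1) * C) := by
  obtain ⟨u, w, L, hu, t1, c1⟩ := summary I hI
  obtain ⟨u', w', L', hu', t2, c2⟩ := summary J hJ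
  refine ⟨u / u', _, div_pos hu hu', (ratio hu' t1 t2).congr fun n => ?_, fun hc => ?_⟩
  · have a : (n.factorial : ℝ) ≠ 0 := by exact_mod_cast n.factorial_ne_zero
    rw [mul_div_mul_left _ _ (pow_pos x0_pos n).ne', div_div_div_cancel_right₀ a]
  · rw [← mul_div_assoc]
    refine div_pos ?_ (mul_pos hu' hu')
    have key : 0 < (-1) ^ (I.sup id + 1) * ((-2) ^ L * w * u' - u * ((-2) ^ L' * w')) := by
      have lo : ∀ {l : ℕ} {a b : ℝ}, 0 < a → R (l + 3) * a ≤ b → a ≤ b := fun {l a b} ha h =>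
        (le_mul_of_one_le_left ha.le (one_le_R (l + 2))).trans h
      have up : ∀ {l : ℕ} {a b : ℝ}, 0 < a → b < R (l + 2) * a → b ≤ 7 / 2 * a :=
        fun {l a b} ha h => h.le.trans (mul_le_mul_of_nonneg_right
          ((R_anti (i := 1) (j := l + 1) (by omega)).trans R_two) ha.le)
      rcases c1 with ⟨rfl, -, -⟩ | ⟨k, l, a1, a2, a3, a4, a5, a6⟩
      · exfalso
        rw [Finset.sup_empty, bot_eq_zero'] at hc
        rcases hc with hc | ⟨hc, k, hk, -, hk'⟩
        · omega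
        · rcases c2 with ⟨rfl, -, -⟩ | ⟨k', l', -, -, b3, -⟩
          · exact absurd (hk' k le_rfl hk) (Finset.notMem_empty _)
          · omega
      · rw [a3] at hc ⊢
        have hL : k + l + 2 + 1 = L := by omega
        rw [hL]
        rcases c2 with ⟨rfl, rfl, rfl⟩ | ⟨k', l', b1, b2, b3, b4, b5, b6⟩
        · exact sign_lt hu hu' (lo hu a5) le_rfl (by linarith) (by omega)
        · rcases hc with hc | ⟨hc, t, h1, h2, h3⟩
          · exact sign_lt hu hu' (lo hu a5) (lo hu' b5) (up hu' b6) (by omega)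
          · have g1 : t ≤ k + 1 := by
              by_contra g
              apply h2
              have := (a2 (t - (k + 2))).2 (by omega)
              rwa [show t - (k + 2) + (k + 2) = t by omega] at this
            have g2 : k' + 1 < t := by
              by_contra g
              exact b1 (h3 _ (by omega) (by omega))
            have g3 : R (l' + 2) ≤ R (l + 3) := R_anti (i := l + 2) (j := l' + 1) (by omega)
            have g4 : L' = L := by omega
            rw [g4]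
            have e1 : (-1 : ℝ) ^ L * (-2) ^ L = 2 ^ L := by rw [← mul_pow]; norm_num
            have e2 : (-1 : ℝ) ^ L * ((-2) ^ L * w * u' - u * ((-2) ^ L * w')) =
                2 ^ L * (w * u' - u * w') := by
              linear_combination (w * u' - u * w') * e1
            rw [e2]
            refine mul_pos (by positivity) ?_
            have p1 := mul_le_mul_of_nonneg_right a5 hu'.le
            have p2 := mul_lt_mul_of_pos_left b6 hu
            have p3 := mul_le_mul_of_nonneg_right g3 (mul_pos hu hu').le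
            linarith
    have := mul_pos rho_pos key
    linarith

end Pool.Agent.Lib.MP_ff54ac_co
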